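import Pool.Agent.Work.MP_0c1432_nt_h67.CS

/-!
# Chen's theorem up to `x`, and counting witnesses
-/

set_option autoImplicit false

namespace Pool.Agent.ChenShift

open Finset Filter
open scoped Classical Topology
open Pool.Agent.Chen

lemma list_cases {n : ℕ} (hn : 2 ≤ n) (h : n.primeFactorsList.length ≤ 2) :
    n.Prime ∨ ∃ q₁ q₂ : ℕ, q₁.Prime ∧ q₂.Prime ∧ n = q₁ * q₂ := by
  have hprod := Nat.prod_primeFactorsList (by omega : n ≠ 0)
  have hpr : ∀ q ∈ n.primeFactorsList, q.Prime := fun q hq =>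
    Nat.prime_of_mem_primeFactorsList hq
  rcases hl : n.primeFactorsList with _ | ⟨a, _ | ⟨b, _ | ⟨c, rest⟩⟩⟩
  · rw [hl] at hprod
    simp at hprod
    omega
  · rw [hl] at hprod hpr
    simp at hprod
    left
    rw [← hprod]
    exact hpr a (by simp)
  · rw [hl] at hprod hpr
    simp at hprod
    right
    exact ⟨a, b, hpr a (by simp), hpr b (by simp), hprod.symm⟩
  · rw [hl] at h
    simp at h

/-- **Chen's theorem up to `x`** for the numbers `n` with `k n + a` prime. -/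
theorem chen_x {k : ℕ} {a : ℤ} (hka : Adm k a) (hk : 2 ≤ k) (b : ℕ) :
    ∃ c : ℝ, 0 < c ∧ ∀ᶠ x : ℕ in atTop, ∃ S : Finset ℕ,
      c * (x / (Real.log x) ^ 2) ≤ (S.card : ℝ) ∧ ∀ n ∈ S, b ≤ n ∧ a.natAbs ≤ n ∧ n ≤ x ∧
        U k a n ≤ x ∧ (U k a n).Prime ∧ ((U k a n : ℕ) : ℤ) = k * n + a ∧
        (n.Prime ∨ ∃ q₁ q₂ : ℕ, q₁.Prime ∧ q₂.Prime ∧ n = q₁ * q₂) := by
  obtain ⟨c, hc, Y₀, hY₀⟩ := CS k a hka
  have hk0 : 0 < k := by omega
  refine ⟨c / (8 * k), by positivity, ?_⟩
  rw [eventually_atTop]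
  refine ⟨4 * k * (Y₀ + b + a.natAbs + 2), fun x hx => ?_⟩
  set Y : ℕ := x / (4 * k) with hY
  have h4k : 0 < 4 * k := by omega
  have hYb : Y₀ + b + a.natAbs + 2 ≤ Y := by
    rw [hY, Nat.le_div_iff_mul_le h4k]
    linarith
  have hYx : 4 * k * Y ≤ x := by
    rw [hY]
    exact Nat.mul_div_le x (4 * k)
  have hxY : x < 4 * k * (Y + 1) := by
    rw [hY]
    exact Nat.lt_mul_div_succ x h4k
  have h1 := hY₀ Y (by omega)
  refine ⟨_, le_trans ?_ h1, ?_⟩
  · -- the size
    have hY1 : (1 : ℝ) ≤ Y := by exact_mod_cast (by omega : 1 ≤ Y)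
    have hkr : (2 : ℝ) ≤ k := by exact_mod_cast hk
    have hYx' : (4 * k * Y : ℝ) ≤ x := by exact_mod_cast hYx
    have hxY' : (x : ℝ) < 4 * k * (Y + 1) := by exact_mod_cast hxY
    have h4Y : ((4 * Y : ℕ) : ℝ) ≤ x := by
      push_cast
      nlinarith
    have h4Y1 : (1 : ℝ) < ((4 * Y : ℕ) : ℝ) := by
      push_cast
      linarith
    have hl0 : 0 < Real.log ((4 * Y : ℕ) : ℝ) := Real.log_pos h4Y1
    have hl1 : Real.log ((4 * Y : ℕ) : ℝ) ≤ Real.log x := Real.log_le_log (by linarith) h4Y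
    have hlx : 0 < Real.log x := by linarith
    have hx2 : (x : ℝ) ≤ 8 * k * Y := by nlinarith
    calc c / (8 * k) * (x / (Real.log x) ^ 2) = c * (x / (8 * k)) / (Real.log x) ^ 2 := by
          field_simp
      _ ≤ c * Y / (Real.log x) ^ 2 := by
          apply div_le_div_of_nonneg_right _ (by positivity)
          apply mul_le_mul_of_nonneg_left _ hc.le
          rw [div_le_iff₀ (by positivity)]
          linarith
      _ ≤ c * Y / (Real.log ((4 * Y : ℕ) : ℝ)) ^ 2 := by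
          apply div_le_div_of_nonneg_left (by positivity) (by positivity)
          exact pow_le_pow_left₀ hl0.le hl1 2
      _ = _ := by ring
  · intro n hn
    rw [mem_filter] at hn
    obtain ⟨hn1, hn2, hn3⟩ := hn
    simp only [Nn, mem_filter, mem_Ico] at hn1
    obtain ⟨⟨h2, h3⟩, h4, h5⟩ := hn1
    have h6 := U_cast hka (show a.natAbs ≤ n by omega)
    refine ⟨by omega, by omega, ?_, ?_, h4, h6, list_cases (by omega) hn2⟩
    · have h7 : 3 * Y ≤ 4 * k * Y := by nlinarith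
      omega
    · have h7 : ((U k a n : ℕ) : ℤ) ≤ ((4 * k * Y : ℕ) : ℤ) := by
        rw [h6]
        have e1 : a ≤ (a.natAbs : ℤ) := by omega
        have e2 : ((a.natAbs : ℕ) : ℤ) ≤ Y := by exact_mod_cast (by omega : a.natAbs ≤ Y)
        have e3 : (n : ℤ) ≤ 3 * Y := by exact_mod_cast h3.le
        have e4 : (1 : ℤ) ≤ k := by exact_mod_cast hk0
        push_cast
        nlinarith
      have h8 : U k a n ≤ 4 * k * Y := by exact_mod_cast h7
      omega

/-- counting witnesses -/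
lemma half {k : ℕ} {a : ℤ} (hka : Adm k a) {x : ℕ} (S : Finset ℕ) (W : ℕ → Prop)
    (h1 : ∀ n ∈ S, a.natAbs ≤ n ∧ n ≤ x ∧ U k a n ≤ x)
    (h2 : ∀ n ∈ S, W (U k a n) ∨ W n) :
    S.card ≤ 2 * ((range (x + 1)).filter W).card := by
  have e1 : S ⊆ (S.filter (fun n => W (U k a n))) ∪ (S.filter (fun n => W n)) := by
    intro n hn
    rw [mem_union, mem_filter, mem_filter]
    rcases h2 n hn with h | h
    · exact Or.inl ⟨hn, h⟩
    · exact Or.inr ⟨hn, h⟩
  have e2 : (S.filter (fun n => W (U k a n))).card ≤ ((range (x + 1)).filter W).card := by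
    refine card_le_card_of_injOn (fun n => U k a n) ?_ ?_
    · intro n hn
      rw [mem_coe, mem_filter] at hn
      rw [mem_coe, mem_filter, Finset.mem_range]
      have h3 := (h1 n hn.1).2.2
      exact ⟨Nat.lt_succ_of_le h3, hn.2⟩
    · intro n hn m hm h
      rw [mem_coe, mem_filter] at hn hm
      exact U_inj hka (h1 n hn.1).1 (h1 m hm.1).1 h
  have e3 : (S.filter (fun n => W n)).card ≤ ((range (x + 1)).filter W).card := by
    apply card_le_card
    intro n hn
    rw [mem_filter] at hn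
    rw [mem_filter, Finset.mem_range]
    have := (h1 n hn.1).2.1
    exact ⟨by omega, hn.2⟩
  have e4 := (card_le_card e1).trans (card_union_le _ _)
  omega

end Pool.Agent.ChenShift
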