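import Pool.Agent.Work.MP_0c1432_nt_h67.ERR

/-!
# Block B1: the main term
-/

set_option autoImplicit false

namespace Pool.Agent.ChenShift

open Finset Filter
open scoped Classical
open Pool.Agent.Chen

theorem XX_nonneg (k : ℕ) (a : ℤ) (Y : ℕ) : 0 ≤ XX k a Y := by
  unfold XX
  positivity

theorem B1 (hPX : Stmt_PX) : Stmt_B1 := by
  intro A hLin k a hka δ hδ
  obtain ⟨hA, hLin⟩ := hLin
  obtain ⟨ε, hε, hS⟩ := hLin (δ / 4) (by positivity)
  obtain ⟨u₀, hu₀, hd⟩ := dens ε hε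
  set η : ℝ := min (1 / 24) (δ / (4 * A)) with hηdef
  have hη : 0 < η := lt_min (by norm_num) (by positivity)
  have hη1 : η ≤ 1 / 24 := min_le_left _ _
  have hη2 : A * η ≤ δ / 4 := by
    calc A * η ≤ A * (δ / (4 * A)) := mul_le_mul_of_nonneg_left (min_le_right _ _) hA.le
      _ = δ / 4 := by field_simp
  have hK : (0 : ℝ) < (u₀ : ℝ) ^ u₀ := by
    have : (0 : ℝ) < u₀ := by exact_mod_cast (by omega : 0 < u₀)
    positivity
  obtain ⟨N₁, h1⟩ := err_small hPX hka (δ / 4) η ((u₀ : ℝ) ^ u₀) (by positivity) hη hK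
  refine ⟨max N₁ 256, fun Y hY => ?_⟩
  have hN1 : N₁ ≤ Y := (le_max_left _ _).trans hY
  have hN2 : (256 : ℝ) ≤ ((4 * Y : ℕ) : ℝ) := by
    have : 256 ≤ Y := (le_max_right _ _).trans hY
    exact_mod_cast (by omega : 256 ≤ 4 * Y)
  set N : ℝ := ((4 * Y : ℕ) : ℝ) with hN
  have hN0 : (0 : ℝ) < N := by linarith
  have hNgt : (1 : ℝ) < N := by linarith
  set M := Md k a with hM
  have hev : Even M := Md_even hka
  set z : ℝ := N ^ (1 / 8 : ℝ) with hz
  set D : ℝ := N ^ (1 / 2 - η) with hD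
  have hz2 : 2 ≤ z := two_le_z hN2
  have hzD : z ^ 2 ≤ D := by
    rw [hz, ← Real.rpow_mul_natCast hN0.le]
    apply Real.rpow_le_rpow_of_exponent_le hNgt.le
    push_cast
    linarith
  have hDz : D ≤ z ^ 4 := by
    rw [hz, ← Real.rpow_mul_natCast hN0.le]
    apply Real.rpow_le_rpow_of_exponent_le hNgt.le
    push_cast
    linarith
  have h2 := (hS (Sf M z) (Qf M z u₀) (fun p => 1 / ((p : ℝ) - 1)) Sf_prime (Qf_sub M z u₀) g_nonneg
    (g_lt_one hev) z D hz2 Sf_lt (fun u w hu huw hw => hd M z u w hu huw hw) (Nn k a Y)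
    (fun n => n) (fun _ => 1) (fun _ _ => zero_le_one) (XX k a Y)
    (XX_nonneg k a Y)).2 hzD hDz
  have hs : Real.log D / Real.log z = 4 - 8 * η := by
    rw [hD, hz, log_ratio hNgt]
    ring
  rw [hs] at h2
  -- the sieve function
  have h3 : A * Real.log 3 / 4 - δ / 4 ≤ A * Real.log (4 - 8 * η - 1) / (4 - 8 * η) := by
    have h4 : Real.log 3 - 4 * η ≤ Real.log (4 - 8 * η - 1) := by
      have h5 : Real.log (4 - 8 * η - 1) = Real.log 3 + Real.log ((3 - 8 * η) / 3) := by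
        rw [← Real.log_mul (by norm_num) (by
          have : 0 < (3 - 8 * η) / 3 := by
            apply div_pos <;> linarith
          exact this.ne')]
        congr 1
        ring
      have h6 : 0 < (3 - 8 * η) / 3 := by apply div_pos <;> linarith
      have h7 := Real.one_sub_inv_le_log_of_pos h6
      have h8 : -(4 * η) ≤ 1 - ((3 - 8 * η) / 3)⁻¹ := by
        rw [inv_div]
        have h9 : 3 / (3 - 8 * η) ≤ 1 + 4 * η := by
          rw [div_le_iff₀ (by linarith)]
          nlinarith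
        linarith
      linarith
    have h5 : 0 ≤ Real.log (4 - 8 * η - 1) := Real.log_nonneg (by linarith)
    have h6 : A * Real.log (4 - 8 * η - 1) / 4 ≤ A * Real.log (4 - 8 * η - 1) / (4 - 8 * η) := by
      apply div_le_div_of_nonneg_left (by positivity) (by linarith) (by linarith)
    have h7 : A * (Real.log 3 - 4 * η) / 4 ≤ A * Real.log (4 - 8 * η - 1) / 4 := by gcongr
    nlinarith
  -- the remainder
  have h4 : ∑ d ∈ (∏ p ∈ Sf M z, p).divisors.filter
      (fun d : ℕ => (d : ℝ) < D * (∏ q ∈ Qf M z u₀, q : ℕ)),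
        |∑ i ∈ (Nn k a Y).filter (fun i => d ∣ i), (1 : ℝ) - XX k a Y *
          ∏ p ∈ d.primeFactors, (1 / ((p : ℝ) - 1))| ≤ δ / 4 * (XX k a Y * VN M z) := by
    refine le_trans (le_of_eq ?_) (h1 Y hN1 ((∏ p ∈ Sf M z, p).divisors.filter
      (fun d : ℕ => (d : ℝ) < D * (∏ q ∈ Qf M z u₀, q : ℕ))) ?_)
    · apply sum_congr rfl
      intro d hd
      have h5 := Nat.dvd_of_mem_divisors (mem_filter.1 hd).1
      rw [prod_g_eq (squarefree_of_mem h5), sum_const, nsmul_eq_mul, mul_one, mul_one_div]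
      rfl
    · intro d hd
      have h5 := Nat.dvd_of_mem_divisors (mem_filter.1 hd).1
      refine ⟨Nat.pos_of_mem_divisors (mem_filter.1 hd).1, ?_, (coprime_of_mem h5).symm⟩
      refine (mem_filter.1 hd).2.trans_le ?_
      apply mul_le_mul_of_nonneg_left _ (by positivity)
      exact_mod_cast prod_Qf_le M z u₀ (by omega)
  have h5 : ∑ i ∈ (Nn k a Y).filter (fun i => ∀ p ∈ Sf M z, ¬ p ∣ i), (1 : ℝ) =
      (T1 k a Y z : ℝ) := by
    rw [sum_const, nsmul_eq_mul, mul_one]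
    rfl
  have h6 : 0 ≤ XX k a Y * VN M z := mul_nonneg (XX_nonneg k a Y) (VN_pos hev z).le
  have h7 : XX k a Y * VN M z * (A * Real.log 3 / 4 - δ / 4 - δ / 4) -
      δ / 4 * (XX k a Y * VN M z) ≤ (T1 k a Y z : ℝ) := by
    rw [← h5]
    refine le_trans ?_ h2
    apply sub_le_sub _ h4
    apply mul_le_mul_of_nonneg_left _ h6
    linarith
  nlinarith

end Pool.Agent.ChenShift
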