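import Pool.Agent.Work.MP_0c1432_nt_h67.Basic
import Pool.Agent.Work.MP_0c1432_nt_h67.B1
import Pool.Agent.Work.Chen.AB

/-!
# Block BB: the switching
-/

set_option autoImplicit false

namespace Pool.Agent.ChenShift

open Finset Filter
open scoped Classical
open Pool.Agent.Chen Pool.Agent.Chen.ABp

variable {k : ℕ} {a : ℤ}

/-- A residue class `s` with `s ≡ 1` modulo `M` and `d ∣ k s + a`. -/
lemma exists_ss (h : Adm k a) {d : ℕ} (hd0 : 0 < d) (hd : (Md k a).Coprime d) :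
    ∃ s : ℕ, s ≡ 1 [MOD Md k a] ∧ (d : ℤ) ∣ (k : ℤ) * s + a := by
  have hkd : k.Coprime d := Nat.Coprime.coprime_dvd_left k_dvd_Md hd
  haveI : NeZero d := ⟨hd0.ne'⟩
  set t : ZMod d := -((a : ℤ) : ZMod d) * ((k : ZMod d))⁻¹ with ht
  have hk : (k : ZMod d) * ((k : ZMod d))⁻¹ = 1 := ZMod.coe_mul_inv_eq_one k hkd
  have h1 : (d : ℤ) ∣ (k : ℤ) * (t.val : ℕ) + a := by
    rw [← ZMod.intCast_zmod_eq_zero_iff_dvd]
    push_cast
    rw [ZMod.natCast_zmod_val, ht]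
    have : (k : ZMod d) * (-((a : ℤ) : ZMod d) * ((k : ZMod d))⁻¹) + ((a : ℤ) : ZMod d) =
        ((a : ℤ) : ZMod d) * (1 - (k : ZMod d) * ((k : ZMod d))⁻¹) := by ring
    rw [this, hk]
    ring
  obtain ⟨h2, h3⟩ := (Nat.chineseRemainder hd 1 t.val).2
  refine ⟨(Nat.chineseRemainder hd 1 t.val : ℕ), h2, ?_⟩
  have h4 : (d : ℤ) ∣ ((Nat.chineseRemainder hd 1 t.val : ℕ) : ℤ) - (t.val : ℕ) :=
    Nat.modEq_iff_dvd.1 h3.symm
  have h5 : (k : ℤ) * ((Nat.chineseRemainder hd 1 t.val : ℕ) : ℤ) + a =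
      (k * (t.val : ℕ) + a) + k * (((Nat.chineseRemainder hd 1 t.val : ℕ) : ℤ) - (t.val : ℕ)) := by
    ring
  rw [h5]
  exact dvd_add h1 (Dvd.dvd.mul_left h4 _)

/-- The class. -/
noncomputable def ss (k : ℕ) (a : ℤ) (d : ℕ) : ℕ :=
  if h : ∃ s : ℕ, s ≡ 1 [MOD Md k a] ∧ (d : ℤ) ∣ (k : ℤ) * s + a then h.choose else 0

lemma ss_spec (h : Adm k a) {d : ℕ} (hd0 : 0 < d) (hd : (Md k a).Coprime d) :
    ss k a d ≡ 1 [MOD Md k a] ∧ (d : ℤ) ∣ (k : ℤ) * (ss k a d : ℕ) + a := by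
  unfold ss
  rw [dif_pos (exists_ss h hd0 hd)]
  exact (exists_ss h hd0 hd).choose_spec

lemma ss_coprime (h : Adm k a) {d : ℕ} (hd0 : 0 < d) (hd : (Md k a).Coprime d) :
    (ss k a d).Coprime (Md k a * d) := by
  obtain ⟨h1, h2⟩ := ss_spec h hd0 hd
  have hM : (ss k a d).Coprime (Md k a) := by
    have h3 := h1.gcd_eq
    rw [Nat.gcd_one_left] at h3
    exact h3
  refine Nat.Coprime.mul_right hM ?_
  rw [← Nat.isCoprime_iff_coprime]
  have h4 : IsCoprime a (d : ℤ) :=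
    (Nat.isCoprime_iff_coprime.2 hd).of_isCoprime_of_dvd_left a_dvd_Md
  obtain ⟨t, ht⟩ := h2
  have h5 : a = -(k : ℤ) * (ss k a d : ℕ) + d * t := by linarith
  rw [h5] at h4
  have h6 : IsCoprime (-(k : ℤ) * (ss k a d : ℕ)) (d : ℤ) := (IsCoprime.add_mul_left_left_iff).1 h4
  exact (IsCoprime.mul_left_iff.1 h6).2

/-- The congruence. -/
lemma ss_congr (h : Adm k a) {d n : ℕ} (hd0 : 0 < d) (hd : (Md k a).Coprime d)
    (hn : a.natAbs ≤ n) :
    (n : ZMod (Md k a * d)) = ((ss k a d : ℕ) : ZMod (Md k a * d)) ↔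
      n ≡ 1 [MOD Md k a] ∧ d ∣ U k a n := by
  obtain ⟨h1, h2⟩ := ss_spec h hd0 hd
  have hkd : IsCoprime (d : ℤ) (k : ℤ) :=
    (Nat.isCoprime_iff_coprime.2 (Nat.Coprime.coprime_dvd_left k_dvd_Md hd)).symm
  have hU : d ∣ U k a n ↔ (d : ℤ) ∣ (k : ℤ) * n + a := by
    rw [← U_cast h hn, Int.natCast_dvd_natCast]
  have hU2 : (d : ℤ) ∣ (k : ℤ) * n + a ↔ n ≡ ss k a d [MOD d] := by
    rw [Nat.modEq_iff_dvd]
    constructor
    · intro h3
      have h4 := dvd_sub h2 h3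
      rw [show (k : ℤ) * (ss k a d : ℕ) + a - (k * n + a) = k * ((ss k a d : ℕ) - (n : ℤ)) by ring]
        at h4
      exact hkd.dvd_of_dvd_mul_left h4
    · intro h3
      have h4 := dvd_sub h2 (Dvd.dvd.mul_left h3 (k : ℤ))
      rwa [show (k : ℤ) * (ss k a d : ℕ) + a - k * ((ss k a d : ℕ) - (n : ℤ)) = k * n + a by ring]
        at h4
  rw [ZMod.natCast_eq_natCast_iff, hU, hU2]
  constructor
  · intro h3
    exact ⟨(h3.of_mul_right d).trans h1, h3.of_mul_left (Md k a)⟩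
  · rintro ⟨h3, h4⟩
    exact (Nat.modEq_and_modEq_iff_modEq_mul hd).1 ⟨h3.trans h1.symm, h4⟩

/-- the remainder for one `d` -/
lemma rem_le (h : Adm k a) {Y : ℕ} {z y : ℝ} (hY : a.natAbs + 1 ≤ Y) (hz : 1 < z)
    (hzN : ((4 * Y : ℕ) : ℝ) ≤ z ^ 8) {d : ℕ} (hd0 : 0 < d) (hd : (Md k a).Coprime d)
    (hdN : Md k a * d ≤ 4 * Y) :
    |((((TB (4 * Y) Y z y).filter (fun n => n ≡ 1 [MOD Md k a])).filter
        (fun n => d ∣ U k a n)).card : ℝ)
        - ((TB (4 * Y) Y z y).card : ℝ) / ((Md k a).totient : ℝ) * (1 / (d.totient : ℝ))| ≤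
      ‖BV.Err (Fc z y) (3 * Y - 1) (Md k a * d) ((ss k a d : ℕ) : ZMod (Md k a * d))‖
        + ‖BV.Err (Fc z y) (2 * Y - 1) (Md k a * d) ((ss k a d : ℕ) : ZMod (Md k a * d))‖
        + 1 / ((Md k a * d).totient : ℝ) * (8 * (((4 * Y : ℕ) : ℝ) / z)) := by
  have hM0 := Md_pos h
  have h0 := err_sub (Fc z y) (show 1 ≤ 2 * Y by omega) (show 2 * Y ≤ 3 * Y by omega)
    (Md k a * d) ((ss k a d : ℕ) : ZMod (Md k a * d))
  have hF : ∀ s : Finset ℕ, ∑ n ∈ s, Fc z y n = ((s.filter (Tri z y)).card : ℂ) := by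
    intro s
    rw [sum_congr rfl (fun n _ => Fc_eq z y n), sum_boole]
  have hTB : TB (4 * Y) Y z y = (Ico (2 * Y) (3 * Y)).filter (Tri z y) := by
    unfold TB
    congr 2 <;> omega
  have h1 : (((Ico (2 * Y) (3 * Y)).filter (fun n : ℕ => (n : ZMod (Md k a * d)) =
      ((ss k a d : ℕ) : ZMod (Md k a * d)))).filter (Tri z y)) =
      ((TB (4 * Y) Y z y).filter (fun n => n ≡ 1 [MOD Md k a])).filter
        (fun n => d ∣ U k a n) := by
    rw [hTB]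
    ext n
    simp only [mem_filter, mem_Ico]
    constructor
    · rintro ⟨⟨h2, h3⟩, h4⟩
      obtain ⟨h5, h6⟩ := (ss_congr h hd0 hd (by omega)).1 h3
      exact ⟨⟨⟨h2, h4⟩, h5⟩, h6⟩
    · rintro ⟨⟨⟨h2, h4⟩, h5⟩, h6⟩
      exact ⟨⟨h2, (ss_congr h hd0 hd (by omega)).2 ⟨h5, h6⟩⟩, h4⟩
  have h2 : (((Ico (2 * Y) (3 * Y)).filter (fun n : ℕ => n.Coprime (Md k a * d))).filter
      (Tri z y)) = (TB (4 * Y) Y z y).filter (fun l => l.Coprime (Md k a * d)) := by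
    rw [hTB]
    ext n
    simp only [mem_filter]
    tauto
  rw [hF, hF, h1, h2] at h0
  set T := TB (4 * Y) Y z y with hT
  have h3 : (((T.filter (fun l => l.Coprime (Md k a * d))).card : ℕ) : ℝ) =
      (T.card : ℝ) - ((T.filter (fun l => ¬ l.Coprime (Md k a * d))).card : ℝ) := by
    have := card_filter_add_card_filter_not (s := T) (fun l => l.Coprime (Md k a * d))
    have h4 : (((T.filter (fun l => l.Coprime (Md k a * d))).card +
      (T.filter (fun l => ¬ l.Coprime (Md k a * d))).card : ℕ) : ℝ) = (T.card : ℝ) := by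
      exact_mod_cast this
    push_cast at h4
    linarith
  set W := ((T.filter (fun n => n ≡ 1 [MOD Md k a])).filter (fun n => d ∣ U k a n)).card with hW
  have h4 : ((((W : ℝ)
        - 1 / ((Md k a * d).totient : ℝ) *
          ((T.filter (fun l => l.Coprime (Md k a * d))).card : ℝ) : ℝ)) : ℂ)
      = BV.Err (Fc z y) (3 * Y - 1) (Md k a * d) ((ss k a d : ℕ) : ZMod (Md k a * d))
        - BV.Err (Fc z y) (2 * Y - 1) (Md k a * d) ((ss k a d : ℕ) : ZMod (Md k a * d)) := by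
    rw [h0]
    push_cast
    ring
  have h5 : |(W : ℝ) - 1 / ((Md k a * d).totient : ℝ) *
          ((T.filter (fun l => l.Coprime (Md k a * d))).card : ℝ)| ≤
      ‖BV.Err (Fc z y) (3 * Y - 1) (Md k a * d) ((ss k a d : ℕ) : ZMod (Md k a * d))‖
        + ‖BV.Err (Fc z y) (2 * Y - 1) (Md k a * d) ((ss k a d : ℕ) : ZMod (Md k a * d))‖ := by
    rw [← Real.norm_eq_abs, ← Complex.norm_real, h4]
    exact norm_sub_le _ _
  have h6 := ncop (Y := Y) (y := y) hz hzN (Nat.mul_pos hM0 hd0) hdN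
  rw [← hT] at h6
  have h7 : 0 ≤ 1 / ((Md k a * d).totient : ℝ) := by positivity
  have h8 : 1 / ((Md k a * d).totient : ℝ) *
      ((T.filter (fun l => ¬ l.Coprime (Md k a * d))).card : ℝ)
      ≤ 1 / ((Md k a * d).totient : ℝ) * (8 * (((4 * Y : ℕ) : ℝ) / z)) :=
    mul_le_mul_of_nonneg_left h6 h7
  have h9 : 0 ≤ 1 / ((Md k a * d).totient : ℝ) *
      ((T.filter (fun l => ¬ l.Coprime (Md k a * d))).card : ℝ) := by
    positivity
  have h10 : (T.card : ℝ) / ((Md k a).totient : ℝ) * (1 / (d.totient : ℝ)) =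
      1 / ((Md k a * d).totient : ℝ) * (T.card : ℝ) := by
    rw [Nat.totient_mul hd]
    push_cast
    rw [div_mul_div_comm, mul_one, one_div_mul_eq_div]
  rw [h10]
  rw [h3] at h5
  rw [abs_le] at h5 ⊢
  constructor <;> nlinarith [h5.1, h5.2]

/-- the sieve products at two levels -/
lemma VN_ratio (M : ℕ) (hM : 0 < M) (θ : ℝ) (hθ : 1 / 8 ≤ θ) (ε : ℝ) (hε : 0 < ε) :
    ∃ N₀ : ℕ, ∀ N : ℕ, N₀ ≤ N →
    VN M ((N : ℝ) ^ θ) * (8 * θ) ≤ (1 + ε) * VN M ((N : ℝ) ^ (1 / 8 : ℝ)) := by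
  obtain ⟨u₀, hu₀, hMe⟩ := LinSieve.MERT ε hε
  have hlim : Tendsto (fun N : ℕ => (N : ℝ) ^ (1 / 8 : ℝ)) atTop atTop :=
    (tendsto_rpow_atTop (by norm_num)).comp tendsto_natCast_atTop_atTop
  obtain ⟨N₀, hN₀⟩ := eventually_atTop.1 ((hlim.eventually_ge_atTop
    (max (u₀ : ℝ) ((M : ℝ) + 1))).and (eventually_ge_atTop 2))
  refine ⟨N₀, fun N hN => ?_⟩
  obtain ⟨h1, hN2⟩ := hN₀ N hN
  have hNr : (2 : ℝ) ≤ N := by exact_mod_cast hN2
  set z : ℝ := (N : ℝ) ^ (1 / 8 : ℝ) with hz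
  set w : ℝ := (N : ℝ) ^ θ with hw
  have hzu : (u₀ : ℝ) ≤ z := (le_max_left _ _).trans h1
  have hzM : (M : ℝ) + 1 ≤ z := (le_max_right _ _).trans h1
  have hu3 : (3 : ℝ) ≤ u₀ := by exact_mod_cast hu₀
  have hzw : z ≤ w := Real.rpow_le_rpow_of_exponent_le (by linarith) hθ
  have hlN : 0 < Real.log N := Real.log_pos (by linarith)
  have hrat : Real.log w / Real.log z = 8 * θ := by
    rw [hw, hz, Real.log_rpow (by linarith), Real.log_rpow (by linarith)]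
    field_simp
  have h2 := (hMe z w hzu hzw).2
  rw [hrat] at h2
  set S := (range ⌈w⌉₊).filter (fun p : ℕ => p.Prime ∧ z ≤ (p : ℝ)) with hS
  have hsub : Sf M z ⊆ Sf M w := by
    intro q hq
    rw [mem_Sf] at hq ⊢
    exact ⟨hq.1.trans_le hzw, hq.2⟩
  have hVN : VN M w = (∏ q ∈ Sf M w \ Sf M z, (1 - 1 / ((q : ℝ) - 1))) * VN M z :=
    (prod_sdiff hsub).symm
  have hS1 : S = Sf M w \ Sf M z := by
    ext p
    rw [hS, mem_filter, Finset.mem_range, Nat.lt_ceil, Finset.mem_sdiff, mem_Sf, mem_Sf]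
    constructor
    · rintro ⟨h3, h4, h5⟩
      refine ⟨⟨h3, h4, ?_⟩, fun h7 => by linarith [h7.1]⟩
      intro h6
      have h7 : p ≤ M := Nat.le_of_dvd hM h6
      have h8 : (p : ℝ) ≤ M := by exact_mod_cast h7
      linarith
    · rintro ⟨⟨h3, h4, h5⟩, h6⟩
      refine ⟨h3, h4, ?_⟩
      by_contra h7
      exact h6 ⟨not_le.1 h7, h4, h5⟩
  rw [hS1] at h2
  have hV0 : 0 ≤ VN M z := prod_nonneg (fun p hp => fac_nonneg (Sf_prime p hp).two_le)
  rw [hVN]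
  calc (∏ q ∈ Sf M w \ Sf M z, (1 - 1 / ((q : ℝ) - 1))) * VN M z * (8 * θ)
      = 8 * θ * (∏ q ∈ Sf M w \ Sf M z, (1 - 1 / ((q : ℝ) - 1))) * VN M z := by ring
    _ ≤ (1 + ε) * VN M z := mul_le_mul_of_nonneg_right h2 hV0

end Pool.Agent.ChenShift
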