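import Pool.Agent.Work.MP_0c1432_nt_h67.BB

/-!
# Block BB: the switching, the sieve bound
-/

set_option autoImplicit false

namespace Pool.Agent.ChenShift

open Finset Filter
open scoped Classical
open Pool.Agent.Chen Pool.Agent.Chen.ABp

/-- The residue classes. -/
noncomputable def cv (k : ℕ) (a : ℤ) (q : ℕ) : ZMod q :=
  if IsUnit ((ss k a (q / Md k a) : ℕ) : ZMod q) then ((ss k a (q / Md k a) : ℕ) : ZMod q) else 1

lemma cv_unit (k : ℕ) (a : ℤ) (q : ℕ) : IsUnit (cv k a q) := by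
  unfold cv
  split_ifs with h
  · exact h
  · exact isUnit_one

lemma cv_eq {k : ℕ} {a : ℤ} (h : Adm k a) {d : ℕ} (hd0 : 0 < d) (hd : (Md k a).Coprime d) :
    cv k a (Md k a * d) = ((ss k a d : ℕ) : ZMod (Md k a * d)) := by
  unfold cv
  rw [Nat.mul_div_cancel_left _ (Md_pos h),
    if_pos ((ZMod.isUnit_iff_coprime _ _).2 (ss_coprime h hd0 hd))]

/-- **The switching**. -/
theorem BB (hPX : Stmt_PX) : Stmt_BB := by
  intro A hA k a hka δ hδ
  obtain ⟨hA0, hlin⟩ := hA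
  set δ₁ : ℝ := δ / 2 with hδ₁
  set ε : ℝ := δ / (A + δ) with hε
  set η : ℝ := δ / (2 * A + 8 * δ) with hη
  have hδ₁0 : 0 < δ₁ := by positivity
  have hε0 : 0 < ε := by positivity
  have hη0 : 0 < η := by positivity
  have hη1 : η ≤ 1 / 8 := by
    rw [hη, div_le_div_iff₀ (by positivity) (by norm_num)]
    linarith
  set θ : ℝ := 1 / 4 - η with hθ
  have hθ1 : 1 / 8 ≤ θ := by linarith
  -- the inequality between the constants
  have hconst : (A / 2 + δ₁) * (1 + ε) ≤ (A / 4 + δ) * (8 * θ) := by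
    have h1 : ε * (A / 2 + δ₁) = δ / 2 := by
      rw [hε, hδ₁]
      field_simp
    have h2 : 8 * η * (A / 4 + δ) = δ := by
      rw [hη]
      field_simp
      ring
    have h3 : (A / 4 + δ) * (8 * θ) = A / 2 + 2 * δ - 8 * η * (A / 4 + δ) := by
      rw [hθ]
      ring
    rw [h3, h2]
    have h4 : (A / 2 + δ₁) * (1 + ε) = A / 2 + δ₁ + ε * (A / 2 + δ₁) := by ring
    rw [h4, h1, hδ₁]
    linarith
  obtain ⟨ε₁, hε₁, hlin⟩ := hlin δ₁ hδ₁0
  obtain ⟨u₀, hu₀, hdens⟩ := dens ε₁ hε₁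
  set K : ℝ := (u₀ : ℝ) ^ u₀ with hK
  have hK1 : 1 ≤ K := by
    have : (1 : ℝ) ≤ u₀ := by exact_mod_cast (by omega : 1 ≤ u₀)
    exact one_le_pow₀ this
  set M := Md k a with hM
  have hM0 : 0 < M := Md_pos hka
  have hev : Even M := Md_even hka
  have hM1 : (1 : ℝ) ≤ M := by exact_mod_cast hM0
  set φ : ℝ := (M.totient : ℝ) with hφ
  have hφ0 : 0 < φ := by
    rw [hφ]
    exact_mod_cast Nat.totient_pos.2 hM0
  obtain ⟨B, C, X₀, hC, hX₀, hBV⟩ := BV.main_bvbp 3 0 9 (by norm_num)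
  obtain ⟨C₂, hC₂, hPHI⟩ := BV.stmt_PHI
  obtain ⟨c, hc, hVL⟩ := VN_lower
  obtain ⟨N₁, hN₁⟩ := hPX k a hka (1 / 2) (by norm_num)
  obtain ⟨N₂, hN₂⟩ := VN_ratio M hM0 θ hθ1 ε hε0
  have hlimz : Tendsto (fun N : ℕ => (N : ℝ) ^ (1 / 8 : ℝ)) atTop atTop :=
    (tendsto_rpow_atTop (by norm_num)).comp tendsto_natCast_atTop_atTop
  have hliml : Tendsto (fun N : ℕ => Real.log N) atTop atTop :=
    Real.tendsto_log_atTop.comp tendsto_natCast_atTop_atTop
  set c' : ℝ := δ * c / (8 * φ) with hc'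
  have hc'0 : 0 < c' := by positivity
  obtain ⟨N₃, hN₃⟩ := eventually_atTop.1
    ((hlimz.eventually_ge_atTop 10).and ((log_pow_ev 1 B (1 / 3) (by norm_num)).and
    ((log_pow_ev (M * K) B (2 * η) (by positivity)).and
    ((log_pow_ev (16 * C₂ / c') 3 (1 / 8) (by norm_num)).and
    (hliml.eventually_ge_atTop (max 1 (4 * C / c')))))))
  refine ⟨max (max N₁ N₂) (max N₃ (max X₀ (a.natAbs + 3))), ?_⟩
  intro Y hY
  have hYN₁ : N₁ ≤ Y := (le_max_left _ _).trans ((le_max_left _ _).trans hY)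
  have hYN₂ : N₂ ≤ Y := (le_max_right _ _).trans ((le_max_left _ _).trans hY)
  have hYN₃ : N₃ ≤ Y := (le_max_left _ _).trans ((le_max_right _ _).trans hY)
  have hYX₀ : X₀ ≤ Y :=
    (le_max_left _ _).trans ((le_max_right _ _).trans ((le_max_right _ _).trans hY))
  have hYa : a.natAbs + 3 ≤ Y :=
    (le_max_right _ _).trans ((le_max_right _ _).trans ((le_max_right _ _).trans hY))
  have hXlow := hN₁ Y hYN₁
  obtain ⟨N, hN⟩ : ∃ N : ℕ, N = 4 * Y := ⟨_, rfl⟩
  rw [← hN] at hXlow ⊢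
  obtain ⟨hz10, hl1, hl2, hl3, hl4⟩ := hN₃ N (by omega)
  have hVNr := hN₂ N (by omega)
  set z : ℝ := (N : ℝ) ^ (1 / 8 : ℝ) with hz
  set y : ℝ := (N : ℝ) ^ (1 / 3 : ℝ) with hy
  set z₂ : ℝ := (N : ℝ) ^ θ with hz₂
  have hNr : (3 : ℝ) ≤ N := by exact_mod_cast (by omega : 3 ≤ N)
  have hNY : (N : ℝ) = 4 * Y := by rw [hN]; push_cast; ring
  have hN0 : (0 : ℝ) < N := by linarith
  have hN1 : (1 : ℝ) ≤ N := by linarith
  set L : ℝ := Real.log N with hL
  have hL1 : 1 ≤ L := (le_max_left _ _).trans hl4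
  have hL2 : 4 * C / c' ≤ L := (le_max_right _ _).trans hl4
  have hL0 : 0 < L := by linarith
  have hY1 : 1 ≤ Y := by omega
  have hz8 : z ^ 8 = N := by
    rw [hz, ← Real.rpow_natCast, ← Real.rpow_mul hN0.le]
    norm_num
  have hzz₂ : z ≤ z₂ := Real.rpow_le_rpow_of_exponent_le hN1 hθ1
  have hzy : z ≤ y := Real.rpow_le_rpow_of_exponent_le hN1 (by norm_num)
  have hz₂0 : 0 < z₂ := by linarith
  -- `z₂ ≤ N^(1/4)`, `z₂ < Y`
  have hYz₂ : z₂ < Y := by
    have h1 : z₂ ≤ (N : ℝ) ^ (1 / 4 : ℝ) :=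
      Real.rpow_le_rpow_of_exponent_le hN1 (by linarith)
    have h2 : (N : ℝ) ^ (1 / 4 : ℝ) * z ≤ (N : ℝ) ^ (1 : ℝ) := by
      rw [hz, ← Real.rpow_add hN0]
      exact Real.rpow_le_rpow_of_exponent_le hN1 (by norm_num)
    rw [Real.rpow_one] at h2
    have h3 : 0 < (N : ℝ) ^ (1 / 4 : ℝ) := by positivity
    nlinarith
  -- the members
  set T := TB N Y z y with hT
  have hTlow : ∀ n ∈ T, 2 * Y ≤ n ∧ n < 3 * Y := by
    intro n hn
    rw [hT] at hn
    unfold TB at hn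
    rw [mem_filter, mem_Ico] at hn
    omega
  set 𝒜 := T.filter (fun n => n ≡ 1 [MOD M]) with h𝒜
  -- the linear sieve
  have hXX0 : 0 ≤ (T.card : ℝ) / φ := by positivity
  have hsieve := (hlin (Sf M z₂) (Qf M z₂ u₀) (fun p => 1 / ((p : ℝ) - 1)) Sf_prime
    (Qf_sub M z₂ u₀) g_nonneg (g_lt_one hev) z₂ (z₂ ^ 2) (by linarith) Sf_lt
    (fun u w hu huw hwz => hdens M z₂ u w hu huw hwz)
    𝒜 (fun l => U k a l) (fun _ => 1) (fun _ _ => zero_le_one)
    ((T.card : ℝ) / φ) hXX0).1 (by nlinarith) (by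
      have : 1 ≤ z₂ := by linarith
      exact pow_le_pow_right₀ this (by norm_num))
  have hlog2 : Real.log (z₂ ^ 2) / Real.log z₂ = 2 := by
    rw [Real.log_pow]
    have : Real.log z₂ ≠ 0 := (Real.log_pos (by linarith)).ne'
    field_simp
    norm_num
  rw [hlog2] at hsieve
  have hT3 : (T3 k a Y z y : ℝ) ≤
      ∑ i ∈ 𝒜.filter (fun i => ∀ p ∈ Sf M z₂, ¬ p ∣ U k a i), (1 : ℝ) := by
    rw [sum_const, nsmul_eq_mul, mul_one]
    unfold T3
    rw [← hN]
    norm_cast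
    apply card_le_card
    intro l hl
    rw [mem_filter] at hl
    rw [mem_filter, h𝒜, mem_filter]
    refine ⟨⟨hl.1, hl.2.2⟩, ?_⟩
    intro p hp hpd
    have h1 := mem_Sf.1 hp
    have h2 := (Nat.prime_dvd_prime_iff_eq h1.2.1 hl.2.1).1 hpd
    obtain ⟨h3, h4⟩ := hTlow l hl.1
    have h5 : Y < U k a l := by
      have h6 := U_cast hka (show a.natAbs ≤ l by omega)
      have hk1 : (1 : ℤ) ≤ k := by exact_mod_cast hka.k_pos
      have h7 : -(a.natAbs : ℤ) ≤ a := by omega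
      have h8 : (2 * Y : ℤ) ≤ l := by exact_mod_cast h3
      have h9 : ((a.natAbs : ℤ)) + 3 ≤ Y := by exact_mod_cast hYa
      have h10 : (l : ℤ) ≤ k * l := by nlinarith [Int.natCast_nonneg l]
      have h11 : (Y : ℤ) < (U k a l : ℕ) := by
        rw [h6]
        linarith
      exact_mod_cast h11
    rw [← h2] at h5
    have h6 : (Y : ℝ) < p := by exact_mod_cast h5
    linarith [h1.1]
  -- the remainder
  set Q' : ℕ := ⌊M * (z₂ ^ 2 * K)⌋₊ with hQ'
  have hz₂sq : z₂ ^ 2 = (N : ℝ) ^ (1 / 2 - 2 * η) := by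
    rw [hz₂, ← Real.rpow_natCast, ← Real.rpow_mul hN0.le]
    congr 1
    rw [hθ]
    push_cast
    ring
  have hsqrt : √(N : ℝ) = (N : ℝ) ^ (1 / 2 : ℝ) := Real.sqrt_eq_rpow _
  have hlev : M * (z₂ ^ 2 * K) * L ^ B ≤ √(N : ℝ) := by
    rw [hz₂sq, hsqrt]
    calc M * ((N : ℝ) ^ (1 / 2 - 2 * η) * K) * L ^ B
        = (N : ℝ) ^ (1 / 2 - 2 * η) * (M * K * L ^ B) := by ring
      _ ≤ (N : ℝ) ^ (1 / 2 - 2 * η) * (N : ℝ) ^ (2 * η) := by
          refine mul_le_mul_of_nonneg_left hl2 (by positivity)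
      _ = (N : ℝ) ^ (1 / 2 : ℝ) := by
          rw [← Real.rpow_add hN0]
          congr 1
          ring
  have hQlev : (Q' : ℝ) ≤ √(N : ℝ) / L ^ B := by
    rw [le_div_iff₀ (by positivity)]
    refine le_trans ?_ hlev
    refine mul_le_mul_of_nonneg_right (Nat.floor_le (by positivity)) (by positivity)
  have hLB1 : 1 ≤ L ^ B := one_le_pow₀ hL1
  have hQN : Q' ≤ N := by
    have h1 : (Q' : ℝ) ≤ √(N : ℝ) := by
      refine hQlev.trans ?_
      rw [div_le_iff₀ (by positivity)]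
      have : 0 ≤ √(N : ℝ) := Real.sqrt_nonneg _
      nlinarith
    have h2 : √(N : ℝ) ≤ N := by
      rw [Real.sqrt_le_left hN0.le]
      exact le_self_pow₀ hN1 (by norm_num)
    exact_mod_cast h1.trans h2
  -- the bilinear Bombieri-Vinogradov theorem
  have hy1 : 1 ≤ y := by linarith
  have hU : N ≤ (⌈z⌉₊ - 1) ^ 9 := by
    have h1 : z - 1 ≤ ((⌈z⌉₊ - 1 : ℕ) : ℝ) := by
      have h2 : 1 ≤ ⌈z⌉₊ := Nat.one_le_ceil_iff.2 (by linarith)
      rw [Nat.cast_sub h2, Nat.cast_one]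
      linarith [Nat.le_ceil z]
    have h3 : (z - 1) ^ 9 ≤ ((⌈z⌉₊ - 1 : ℕ) : ℝ) ^ 9 := pow_le_pow_left₀ (by linarith) h1 9
    have h4 : z ^ 8 ≤ (z - 1) ^ 9 := by
      have h5 := one_add_mul_le_pow (show (-2 : ℝ) ≤ -(1 / z) by
        have : 1 / z ≤ 1 := by rw [div_le_one (by linarith)]; linarith
        linarith) 9
      have h6 : z ^ 9 * (1 + (9 : ℕ) * -(1 / z)) = z ^ 8 * (z - 9) := by
        have : z ≠ 0 := by linarith
        field_simp
        push_cast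
        ring
      have h7 : z ^ 9 * (1 + -(1 / z)) ^ 9 = (z - 1) ^ 9 := by
        rw [← mul_pow]
        congr 1
        have : z ≠ 0 := by linarith
        field_simp
        ring
      have h8 : z ^ 9 * (1 + (9 : ℕ) * -(1 / z)) ≤ z ^ 9 * (1 + -(1 / z)) ^ 9 :=
        mul_le_mul_of_nonneg_left h5 (by positivity)
      rw [h6, h7] at h8
      have h9 : 0 ≤ z ^ 8 := by positivity
      nlinarith
    rw [hz8] at h4
    exact_mod_cast h4.trans h3
  have hV : L ^ B ≤ ((⌈y⌉₊ : ℕ) : ℝ) := by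
    rw [one_mul] at hl1
    exact hl1.trans (Nat.le_ceil y)
  have hα2 : ∀ M' ≤ N, ∑ m ∈ Ioc 0 M', ‖al y m‖ ^ 2 ≤ L ^ 0 * M' := by
    intro M' _
    calc ∑ m ∈ Ioc 0 M', ‖al y m‖ ^ 2 ≤ ∑ m ∈ Ioc 0 M', (1 : ℝ) :=
          sum_le_sum (fun m _ => al_norm y m)
      _ = L ^ 0 * M' := by simp
  have hBV2 : ∀ y' : ℕ, y' ≤ N → ∑ q ∈ Ioc 0 Q', ‖BV.Err (Fc z y) y' q (cv k a q)‖
      ≤ C * (N / L ^ 3) := by
    intro y' hy'
    exact hBV N (by omega) Q' (⌈z⌉₊ - 1) ⌈y⌉₊ hQlev hU hV (al y) (fun m hm => al_zero hy1 hm) hα2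
      (⌈y⌉₊ - 1) (fun _ => y') (fun _ => hy') (cv k a) (cv_unit k a)
  -- the sum of the remainders
  set G : ℕ → ℝ := fun q => ‖BV.Err (Fc z y) (3 * Y - 1) q (cv k a q)‖
    + ‖BV.Err (Fc z y) (2 * Y - 1) q (cv k a q)‖
    + 1 / (q.totient : ℝ) * (8 * (N / z)) with hG
  have hrem : ∑ d ∈ (∏ p ∈ Sf M z₂, p).divisors.filter
        (fun d : ℕ => (d : ℝ) < z₂ ^ 2 * (∏ q ∈ Qf M z₂ u₀, q : ℕ)),
        |∑ i ∈ 𝒜.filter (fun i => d ∣ U k a i), (1 : ℝ)
          - (T.card : ℝ) / φ * ∏ p ∈ d.primeFactors, (1 / ((p : ℝ) - 1))|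
      ≤ 2 * (C * (N / L ^ 3)) + C₂ * L * (8 * (N / z)) := by
    have hin : ∀ d ∈ (∏ p ∈ Sf M z₂, p).divisors.filter
        (fun d : ℕ => (d : ℝ) < z₂ ^ 2 * (∏ q ∈ Qf M z₂ u₀, q : ℕ)),
        0 < d ∧ M * d ∈ Ioc 0 Q' ∧ d ∣ ∏ p ∈ Sf M z₂, p := by
      intro d hd
      rw [mem_filter, Nat.mem_divisors] at hd
      obtain ⟨⟨h1, h2⟩, h3⟩ := hd
      have hd0 : 0 < d :=
        Nat.pos_of_ne_zero (fun h => h2 (by rw [h] at h1; exact zero_dvd_iff.1 h1))
      refine ⟨hd0, ?_, h1⟩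
      rw [mem_Ioc]
      refine ⟨Nat.mul_pos hM0 hd0, ?_⟩
      rw [hQ']
      apply Nat.le_floor
      rw [Nat.cast_mul]
      refine mul_le_mul_of_nonneg_left ?_ (by positivity)
      refine h3.le.trans ?_
      have h4 : ((∏ q ∈ Qf M z₂ u₀, q : ℕ) : ℝ) ≤ K := by
        rw [hK]
        exact_mod_cast prod_Qf_le M z₂ u₀ (by omega)
      exact mul_le_mul_of_nonneg_left h4 (by positivity)
    set DD : Finset ℕ := (∏ p ∈ Sf M z₂, p).divisors.filter
        (fun d : ℕ => (d : ℝ) < z₂ ^ 2 * (∏ q ∈ Qf M z₂ u₀, q : ℕ)) with hDD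
    have hinj : Set.InjOn (fun d => M * d) (DD : Set ℕ) := by
      intro d _ d' _ h
      exact Nat.eq_of_mul_eq_mul_left hM0 h
    calc _ ≤ ∑ d ∈ DD, G (M * d) := by
          refine sum_le_sum fun d hd => ?_
          obtain ⟨h0, h1, h2⟩ := hin d hd
          rw [mem_Ioc] at h1
          have hcop : M.Coprime d := (coprime_of_mem h2).symm
          have h3 := rem_le hka (z := z) (y := y) (Y := Y) (by omega) (by linarith : 1 < z)
            (by rw [← hN]; exact hz8.ge) (d := d) h0 hcop (by rw [← hN]; exact h1.2.trans hQN)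
          rw [← hM, ← hN, ← cv_eq hka h0 hcop] at h3
          rw [prod_g_eq (squarefree_of_mem h2), sum_const, nsmul_eq_mul, mul_one]
          exact h3
      _ = ∑ q ∈ DD.image (fun d => M * d), G q := (sum_image hinj).symm
      _ ≤ ∑ q ∈ Ioc 0 Q', G q := by
          refine sum_le_sum_of_subset_of_nonneg ?_ (fun q _ _ => by simp only [hG]; positivity)
          intro q hq
          rw [mem_image] at hq
          obtain ⟨d, hd, rfl⟩ := hq
          exact (hin d hd).2.1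
      _ = ∑ d ∈ Ioc 0 Q', ‖BV.Err (Fc z y) (3 * Y - 1) d (cv k a d)‖
          + ∑ d ∈ Ioc 0 Q', ‖BV.Err (Fc z y) (2 * Y - 1) d (cv k a d)‖
          + (∑ d ∈ Ioc 0 Q', 1 / (d.totient : ℝ)) * (8 * (N / z)) := by
          simp only [hG]
          rw [sum_add_distrib, sum_add_distrib, sum_mul]
      _ ≤ C * (N / L ^ 3) + C * (N / L ^ 3) + C₂ * L * (8 * (N / z)) := by
          have h1 := hBV2 (3 * Y - 1) (by omega)
          have h2 := hBV2 (2 * Y - 1) (by omega)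
          have h3 : ∑ d ∈ Ioc 0 Q', 1 / (d.totient : ℝ) ≤ C₂ * L := by
            refine le_trans ?_ (hPHI N (by omega))
            refine sum_le_sum_of_subset_of_nonneg (Ioc_subset_Ioc_right hQN) (fun d _ _ => ?_)
            positivity
          have h4 : 0 ≤ 8 * ((N : ℝ) / z) := by positivity
          have h5 := mul_le_mul_of_nonneg_right h3 h4
          linarith
      _ = _ := by ring
  -- the error term is small
  have herr : 2 * (C * (N / L ^ 3)) + C₂ * L * (8 * (N / z)) ≤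
      δ * XX k a Y * VN M z := by
    have h2 : c / L ≤ VN M z := by
      refine le_trans ?_ (hVL M hev z (by linarith))
      have h3 : Real.log z = 1 / 8 * L := by
        rw [hz, Real.log_rpow hN0]
      rw [h3]
      apply div_le_div_of_nonneg_left hc.le (by positivity)
      linarith
    have h1 : 1 / 2 * (Y / L / φ) ≤ XX k a Y := by
      refine le_trans (le_of_eq ?_) hXlow
      rw [show (1 : ℝ) - 1 / 2 = 1 / 2 by norm_num]
    have h4 : δ * (1 / 2 * (Y / L / φ)) * (c / L) ≤ δ * XX k a Y * VN M z := by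
      have h6 : 0 ≤ c / L := by positivity
      exact mul_le_mul (mul_le_mul_of_nonneg_left h1 hδ.le) h2 h6
        (mul_nonneg hδ.le (XX_nonneg k a Y))
    refine le_trans ?_ h4
    have h5 : δ * (1 / 2 * (Y / L / φ)) * (c / L) = c' * (N / L ^ 2) := by
      have e1 : (Y : ℝ) = N / 4 := by linarith
      rw [hc', e1]
      clear_value L φ
      field_simp
      ring
    rw [h5]
    have h6 : 2 * (C * (N / L ^ 3)) ≤ (c' / 2) * (N / L ^ 2) := by
      have h7 : 4 * C ≤ c' * L := by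
        rw [div_le_iff₀ hc'0] at hL2
        linarith
      have h9 : (c' / 2) * (N / L ^ 2) = ((c' / 2) * L) * (N / L ^ 3) := by
        field_simp
      rw [h9, ← mul_assoc]
      exact mul_le_mul_of_nonneg_right (by linarith) (by positivity)
    have h7 : C₂ * L * (8 * (N / z)) ≤ (c' / 2) * (N / L ^ 2) := by
      have h8 : 16 * C₂ * L ^ 3 ≤ c' * z := by
        have h9 := mul_le_mul_of_nonneg_left hl3 hc'0.le
        refine le_trans (le_of_eq ?_) h9
        field_simp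
      have hz0 : z ≠ 0 := by linarith
      have h10 : C₂ * L * (8 * (N / z)) = (8 * C₂ * L ^ 3) * (N / (z * L ^ 2)) := by
        field_simp
      have h11 : (c' / 2) * (N / L ^ 2) = ((c' / 2) * z) * (N / (z * L ^ 2)) := by
        field_simp
      rw [h10, h11]
      exact mul_le_mul_of_nonneg_right (by linarith) (by positivity)
    linarith
  -- conclusion
  have hV0 : 0 ≤ VN M z := (VN_pos hev z).le
  have hV20 : 0 ≤ VN M z₂ := (VN_pos hev z₂).le
  have hmain : (T.card : ℝ) / φ * (∏ p ∈ Sf M z₂, (1 - 1 / ((p : ℝ) - 1))) * (A / 2 + δ₁) ≤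
      (T.card : ℝ) / φ * (A / 4 + δ) * VN M z := by
    have h1 : (∏ p ∈ Sf M z₂, (1 - 1 / ((p : ℝ) - 1))) = VN M z₂ := rfl
    rw [h1]
    have h2 : VN M z₂ * (A / 2 + δ₁) ≤ (A / 4 + δ) * VN M z := by
      have hθ0 : 0 < 8 * θ := by linarith
      have h3 : VN M z₂ * (A / 2 + δ₁) * (8 * θ) ≤ (A / 4 + δ) * VN M z * (8 * θ) := by
        calc VN M z₂ * (A / 2 + δ₁) * (8 * θ) = (VN M z₂ * (8 * θ)) * (A / 2 + δ₁) := by ring
          _ ≤ ((1 + ε) * VN M z) * (A / 2 + δ₁) :=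
              mul_le_mul_of_nonneg_right hVNr (by positivity)
          _ = VN M z * ((A / 2 + δ₁) * (1 + ε)) := by ring
          _ ≤ VN M z * ((A / 4 + δ) * (8 * θ)) := mul_le_mul_of_nonneg_left hconst hV0
          _ = (A / 4 + δ) * VN M z * (8 * θ) := by ring
      exact le_of_mul_le_mul_right h3 hθ0
    calc (T.card : ℝ) / φ * VN M z₂ * (A / 2 + δ₁)
        = (T.card : ℝ) / φ * (VN M z₂ * (A / 2 + δ₁)) := by ring
      _ ≤ (T.card : ℝ) / φ * ((A / 4 + δ) * VN M z) := mul_le_mul_of_nonneg_left h2 hXX0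
      _ = _ := by ring
  calc (T3 k a Y z y : ℝ) ≤ _ := hT3
    _ ≤ _ := hsieve
    _ ≤ (T.card : ℝ) / φ * (A / 4 + δ) * VN M z + δ * XX k a Y * VN M z :=
        add_le_add hmain (hrem.trans herr)
    _ = _ := by ring

end Pool.Agent.ChenShift
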