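import Pool.Agent.Work.MP_0c1432_nt_h67.B1
import Pool.Agent.Work.Chen.AQ

/-!
# Block BQ: the sum over `q`
-/

set_option autoImplicit false

namespace Pool.Agent.ChenShift

open Finset Filter MeasureTheory
open scoped Classical Topology
open Pool.Agent.Chen

/-- The sum of the main terms. -/
lemma main_sum (A δ η : ℝ) (hA : 0 < A) (hδ : 0 < δ) (hη : 0 < η) (hη1 : η ≤ 1 / 24) :
    ∃ N₀ : ℕ, ∀ N ≥ N₀, ∀ M : ℕ,
      ∑ q ∈ Qs M ((N : ℝ) ^ (1 / 8 : ℝ)) ((N : ℝ) ^ (1 / 3 : ℝ)),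
      (1 / ((q : ℝ) - 1)) * (A / (8 * (1 / 2 - η - Real.log q / Real.log N)) + δ) ≤
      A / (8 * (1 / 2 - η)) * (Real.log (2 / (1 - 6 * η)) + Real.log (3 / (1 - 8 * η))) +
        3 * δ := by
  have hab : (1 / 8 - η) ≤ (1 / 3 : ℝ) := by linarith
  have ha : (0 : ℝ) < 1 / 8 - η := by linarith
  set F : ℝ → ℝ := fun t => A / (8 * (1 / 2 - η - t)) + δ with hF
  have hFc : ContinuousOn F (Set.Icc (1 / 8 - η) (1 / 3)) := by
    apply ContinuousOn.add _ continuousOn_const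
    apply ContinuousOn.div continuousOn_const (by fun_prop)
    intro t ht
    have ht1 : 0 < 1 / 2 - η - t := by linarith [ht.2]
    positivity
  have h1 := prime_sum_tendsto F (1 / 8 - η) (1 / 3) ha hab hFc
  rw [integral_F A δ η hη hη1] at h1
  set I := A / (8 * (1 / 2 - η)) * (Real.log (2 / (1 - 6 * η)) + Real.log (3 / (1 - 8 * η)))
  have h2 : Tendsto (fun x : ℝ => (1 + 2 / x ^ (1 / 8 : ℝ)) * PS F (1 / 8 - η) (1 / 3) x) atTop
      (𝓝 ((1 + 0) * (I + δ * (Real.log (1 / 3) - Real.log (1 / 8 - η))))) := by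
    apply Tendsto.mul _ h1
    apply tendsto_const_nhds.add
    exact Tendsto.const_div_atTop (tendsto_rpow_atTop (by norm_num)) 2
  have h3 : (1 + 0) * (I + δ * (Real.log (1 / 3) - Real.log (1 / 8 - η))) < I + 3 * δ := by
    have h4 : Real.log (1 / 3) - Real.log (1 / 8 - η) ≤ 2 := by
      have h5 : Real.log (1 / 12) ≤ Real.log (1 / 8 - η) :=
        Real.log_le_log (by norm_num) (by linarith)
      have h6 : Real.log (1 / 3) - Real.log (1 / 12) = Real.log 4 := by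
        rw [← Real.log_div (by norm_num) (by norm_num)]
        norm_num
      have h7 : Real.log 4 ≤ 2 := by
        rw [show (4 : ℝ) = 2 ^ 2 by norm_num, Real.log_pow]
        have := Real.log_two_lt_d9
        push_cast
        linarith
      linarith
    nlinarith
  have h4 := h2.eventually_lt_const h3
  obtain ⟨N₀, hN₀⟩ := ev_nat (h4.and (eventually_ge_atTop (256 : ℝ)))
  refine ⟨N₀, fun N hN M => ?_⟩
  obtain ⟨h5, h6⟩ := hN₀ N hN
  have hN0 : (0 : ℝ) < N := by linarith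
  have hNgt : (1 : ℝ) < N := by linarith
  have hlN : 0 < Real.log N := Real.log_pos hNgt
  refine le_trans ?_ h5.le
  have hz : (0 : ℝ) < (N : ℝ) ^ (1 / 8 : ℝ) := Real.rpow_pos_of_pos hN0 _
  unfold PS
  rw [mul_sum]
  have hsub : Qs M ((N : ℝ) ^ (1 / 8 : ℝ)) ((N : ℝ) ^ (1 / 3 : ℝ)) ⊆
      (Ioc ⌊(N : ℝ) ^ (1 / 8 - η)⌋₊ ⌊(N : ℝ) ^ (1 / 3 : ℝ)⌋₊).filter Nat.Prime := by
    intro q hq
    obtain ⟨h7, h8, h9, _⟩ := mem_Qs.1 hq
    rw [mem_filter, mem_Ioc]
    refine ⟨⟨?_, Nat.le_floor h7.le⟩, h8⟩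
    rw [Nat.floor_lt (Real.rpow_nonneg hN0.le _)]
    refine lt_of_lt_of_le ?_ h9
    exact Real.rpow_lt_rpow_of_exponent_lt hNgt (by linarith)
  have hpos : ∀ q ∈ (Ioc ⌊(N : ℝ) ^ (1 / 8 - η)⌋₊ ⌊(N : ℝ) ^ (1 / 3 : ℝ)⌋₊).filter Nat.Prime,
      0 ≤ F (Real.log q / Real.log N) := by
    intro q hq
    have h7 := mem_range (1 / 8 - η) (1 / 3) N hNgt q (mem_filter.1 hq).1
    have h8 : 0 < 1 / 2 - η - Real.log q / Real.log N := by linarith [h7.2.1]
    simp only [hF]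
    positivity
  refine le_trans (sum_le_sum (g := fun q : ℕ => (1 + 2 / (N : ℝ) ^ (1 / 8 : ℝ)) *
    (F (Real.log q / Real.log N) / q)) ?_) (sum_le_sum_of_subset_of_nonneg hsub ?_)
  · intro q hq
    have h7 := hpos q (hsub hq)
    obtain ⟨h8, h9, h10, _⟩ := mem_Qs.1 hq
    have h11 : (2 : ℝ) ≤ q := by exact_mod_cast h9.two_le
    have h12 : 1 / ((q : ℝ) - 1) ≤ (1 + 2 / (N : ℝ) ^ (1 / 8 : ℝ)) / q := by
      have h13 : 1 / ((q : ℝ) - 1) ≤ (1 + 2 / q) / q := by
        rw [div_le_div_iff₀ (by linarith) (by linarith)]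
        have : (1 + 2 / (q : ℝ)) * (q - 1) = q + 1 - 2 / q := by field_simp; ring
        rw [this]
        have h14 : 2 / (q : ℝ) ≤ 1 := by rw [div_le_one (by linarith)]; exact h11
        linarith
      refine h13.trans ?_
      gcongr
    calc 1 / ((q : ℝ) - 1) * (A / (8 * (1 / 2 - η - Real.log q / Real.log N)) + δ)
        = 1 / ((q : ℝ) - 1) * F (Real.log q / Real.log N) := rfl
      _ ≤ (1 + 2 / (N : ℝ) ^ (1 / 8 : ℝ)) / q * F (Real.log q / Real.log N) := by gcongr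
      _ = _ := by ring
  · intro q hq _
    have h7 := hpos q hq
    positivity

theorem BQ (hPX : Stmt_PX) : Stmt_BQ := by
  intro A hLin k a hka δ hδ
  obtain ⟨hA, hLin⟩ := hLin
  obtain ⟨ε, hε, hS⟩ := hLin (δ / 12) (by positivity)
  obtain ⟨u₀, hu₀, hd⟩ := dens ε hε
  obtain ⟨η, hη, hη1, hη2⟩ := choose_eta A (δ / 4) (by positivity)
  have hK : (0 : ℝ) < (u₀ : ℝ) ^ u₀ := by
    have : (0 : ℝ) < u₀ := by exact_mod_cast (by omega : 0 < u₀)
    positivity
  obtain ⟨N₁, h1⟩ := err_small hPX hka (δ / 4) η ((u₀ : ℝ) ^ u₀) (by positivity) hη hK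
  obtain ⟨N₂, h2⟩ := main_sum A (δ / 12) η hA (by positivity) hη hη1
  refine ⟨max N₁ (max N₂ 256), fun Y hY => ?_⟩
  have hN1 : N₁ ≤ Y := (le_max_left _ _).trans hY
  have hN2 : N₂ ≤ 4 * Y := by
    have : N₂ ≤ Y := (le_max_left _ _).trans ((le_max_right _ _).trans hY)
    omega
  have hN3 : (256 : ℝ) ≤ ((4 * Y : ℕ) : ℝ) := by
    have : 256 ≤ Y := (le_max_right _ _).trans ((le_max_right _ _).trans hY)
    exact_mod_cast (by omega : 256 ≤ 4 * Y)
  have h2' := h2 (4 * Y) hN2 (Md k a)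
  set N : ℝ := ((4 * Y : ℕ) : ℝ) with hN
  have hN0 : (0 : ℝ) < N := by linarith
  have hNgt : (1 : ℝ) < N := by linarith
  have hlN : 0 < Real.log N := Real.log_pos hNgt
  set M := Md k a with hM
  have hev : Even M := Md_even hka
  set z : ℝ := N ^ (1 / 8 : ℝ) with hz
  set y : ℝ := N ^ (1 / 3 : ℝ) with hy
  set D : ℝ := N ^ (1 / 2 - η) with hD
  have hD0 : 0 < D := Real.rpow_pos_of_pos hN0 _
  have hz2 : 2 ≤ z := two_le_z hN3
  set X : ℝ := XX k a Y with hX
  set V := VN M z with hV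
  have hXV : 0 ≤ X * V := mul_nonneg (XX_nonneg k a Y) (VN_pos hev z).le
  -- the bound for one `q`
  have key : ∀ q ∈ Qs M z y, (Tq k a Y z q : ℝ) ≤ X * V * ((1 / ((q : ℝ) - 1)) *
      (A / (8 * (1 / 2 - η - Real.log q / Real.log N)) + δ / 12)) +
      ∑ d ∈ Dq M z D u₀ q, Er k a Y (q * d) := by
    intro q hq
    obtain ⟨hqy, hqp, hqz, hqN⟩ := mem_Qs.1 hq
    have hq2 : (2 : ℝ) ≤ q := by exact_mod_cast hqp.two_le
    have hq0 : (0 : ℝ) < q := by linarith
    have hzD : z ≤ D / q := by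
      rw [le_div_iff₀ hq0]
      calc z * q ≤ z * y := by gcongr
        _ = N ^ (1 / 8 + 1 / 3 : ℝ) := by rw [hz, hy, ← Real.rpow_add hN0]
        _ ≤ D := Real.rpow_le_rpow_of_exponent_le hNgt.le (by linarith)
    have hDz : D / q ≤ z ^ 3 := by
      rw [div_le_iff₀ hq0]
      calc D ≤ z ^ 4 := by
            rw [hz, ← Real.rpow_mul_natCast hN0.le]
            apply Real.rpow_le_rpow_of_exponent_le hNgt.le
            push_cast
            linarith
        _ = z ^ 3 * z := by ring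
        _ ≤ z ^ 3 * q := by gcongr
    have h3 := (hS (Sf M z) (Qf M z u₀) (fun p => 1 / ((p : ℝ) - 1)) Sf_prime (Qf_sub M z u₀)
      g_nonneg (g_lt_one hev) z (D / q) hz2 Sf_lt (fun u w hu huw hw => hd M z u w hu huw hw)
      ((Nn k a Y).filter (fun n => q ∣ n))
      (fun n => n) (fun _ => 1) (fun _ _ => zero_le_one) (X / ((q : ℝ) - 1))
      (by apply div_nonneg (XX_nonneg k a Y); linarith)).1 hzD hDz
    have hs : Real.log (D / q) / Real.log z = 8 * (1 / 2 - η - Real.log q / Real.log N) := by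
      rw [Real.log_div hD0.ne' hq0.ne', hD, hz, Real.log_rpow hN0, Real.log_rpow hN0]
      field_simp
    rw [hs] at h3
    have h4 : ∑ i ∈ ((Nn k a Y).filter (fun n => q ∣ n)).filter
        (fun i => ∀ p ∈ Sf M z, ¬ p ∣ i), (1 : ℝ) = (Tq k a Y z q : ℝ) := by
      rw [sum_const, nsmul_eq_mul, mul_one, filter_filter]
      rfl
    rw [h4] at h3
    refine h3.trans (add_le_add (le_of_eq ?_) (le_of_eq ?_))
    · change X / ((q : ℝ) - 1) * V * _ = _
      ring
    · apply sum_congr rfl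
      intro d hdd
      have h5 := Nat.dvd_of_mem_divisors (mem_filter.1 hdd).1
      have h6 : q.Coprime d := q_coprime hq (q' := q) hdd
      rw [prod_g_eq (squarefree_of_mem h5), sum_const, nsmul_eq_mul, mul_one, filter_filter]
      unfold Er
      have h7 : (Nn k a Y).filter (fun n => q * d ∣ n) =
          (Nn k a Y).filter (fun n => q ∣ n ∧ d ∣ n) := by
        apply filter_congr
        intro p _
        constructor
        · intro h
          exact ⟨(dvd_mul_right q d).trans h, (dvd_mul_left d q).trans h⟩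
        · intro h
          exact h6.mul_dvd_of_dvd_of_dvd h.1 h.2
      rw [h7, Nat.totient_mul h6, Nat.totient_prime hqp]
      congr 1
      rw [Nat.cast_mul, Nat.cast_sub hqp.one_le, Nat.cast_one]
      congr 1
      rw [mul_one_div, div_div]
  -- the sum of the remainders
  have hrem : ∑ q ∈ Qs M z y, ∑ d ∈ Dq M z D u₀ q, Er k a Y (q * d) ≤ δ / 4 * (X * V) := by
    rw [sum_sigma']
    have h3 := sum_image (f := fun m => Er k a Y m) (inj_mul (N := M) (z := z) (y := y) (D := D)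
      (u₀ := u₀))
    rw [← h3]
    apply h1 Y hN1
    intro m hm
    rw [mem_image] at hm
    obtain ⟨⟨q, d⟩, h4, rfl⟩ := hm
    rw [mem_sigma] at h4
    obtain ⟨hq, hdd⟩ := h4
    simp only at hq hdd
    obtain ⟨hqy, hqp, hqz, hqN⟩ := mem_Qs.1 hq
    have hq0 : (0 : ℝ) < q := by exact_mod_cast hqp.pos
    have h5 := Nat.dvd_of_mem_divisors (mem_filter.1 hdd).1
    have h6 := Nat.pos_of_mem_divisors (mem_filter.1 hdd).1
    refine ⟨Nat.mul_pos hqp.pos h6, ?_, ?_⟩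
    · have h7 := (mem_filter.1 hdd).2
      have h8 : ((∏ r ∈ Qf M z u₀, r : ℕ) : ℝ) ≤ (u₀ : ℝ) ^ u₀ := by
        exact_mod_cast prod_Qf_le M z u₀ (by omega)
      rw [Nat.cast_prod] at h7 h8
      rw [Nat.cast_mul]
      calc (q : ℝ) * d < q * (D / q * ∏ r ∈ Qf M z u₀, (r : ℝ)) := by gcongr
        _ = D * ∏ r ∈ Qf M z u₀, (r : ℝ) := by field_simp
        _ ≤ D * (u₀ : ℝ) ^ u₀ := by gcongr
    · exact (Nat.Coprime.mul_left ((hqp.coprime_iff_not_dvd).2 hqN) (coprime_of_mem h5)).symm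
  calc ∑ q ∈ Qs M z y, (Tq k a Y z q : ℝ)
      ≤ ∑ q ∈ Qs M z y, (X * V * ((1 / ((q : ℝ) - 1)) *
        (A / (8 * (1 / 2 - η - Real.log q / Real.log N)) + δ / 12)) +
        ∑ d ∈ Dq M z D u₀ q, Er k a Y (q * d)) := sum_le_sum key
    _ = X * V * (∑ q ∈ Qs M z y, (1 / ((q : ℝ) - 1)) *
        (A / (8 * (1 / 2 - η - Real.log q / Real.log N)) + δ / 12)) +
        ∑ q ∈ Qs M z y, ∑ d ∈ Dq M z D u₀ q, Er k a Y (q * d) := by
        rw [sum_add_distrib, mul_sum]
    _ ≤ X * V * (A * Real.log 6 / 4 + δ / 4 + 3 * (δ / 12)) + δ / 4 * (X * V) := by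
        apply add_le_add _ hrem
        apply mul_le_mul_of_nonneg_left _ hXV
        exact h2'.trans (by linarith)
    _ ≤ X * V * (A * Real.log 6 / 4 + δ) := by nlinarith

end Pool.Agent.ChenShift
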