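import Pool.Agent.Work.MP_0c1432_nt_h67.Interface

/-!
# The linear form `k n + a` and its residue classes
-/

set_option autoImplicit false

namespace Pool.Agent.ChenShift

open Finset
open scoped Classical
open Pool.Agent.Chen

variable {k : ℕ} {a : ℤ}

lemma Md_pos (h : Adm k a) : 0 < Md k a :=
  Nat.mul_pos h.k_pos (Int.natAbs_pos.2 h.a_ne)

lemma Md_even (h : Adm k a) : Even (Md k a) := by
  have h1 := h.even
  have h2 : Even ((k : ℤ) * a).natAbs := Int.natAbs_even.2 h1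
  rwa [Int.natAbs_mul, Int.natAbs_natCast] at h2

lemma k_dvd_Md : k ∣ Md k a := dvd_mul_right _ _

lemma a_dvd_Md : a ∣ ((Md k a : ℕ) : ℤ) := by
  unfold Md
  rw [Nat.cast_mul]
  exact Dvd.dvd.mul_left (Int.dvd_natAbs.2 (dvd_refl a)) _

/-- The linear form. -/
lemma U_cast (h : Adm k a) {n : ℕ} (hn : a.natAbs ≤ n) : ((U k a n : ℕ) : ℤ) = k * n + a := by
  unfold U
  apply Int.toNat_of_nonneg
  have h1 : (1 : ℤ) ≤ k := by exact_mod_cast h.k_pos
  have h2 : (a.natAbs : ℤ) ≤ n := by exact_mod_cast hn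
  have h3 : -(a.natAbs : ℤ) ≤ a := by omega
  have h4 : (n : ℤ) ≤ k * n := by nlinarith [Int.natCast_nonneg n]
  linarith

lemma U_lt_iff (h : Adm k a) {n m : ℕ} (hn : a.natAbs ≤ n) (hm : a.natAbs ≤ m) :
    U k a n < U k a m ↔ n < m := by
  have h1 := U_cast h hn
  have h2 := U_cast h hm
  have h3 : (1 : ℤ) ≤ k := by exact_mod_cast h.k_pos
  constructor
  · intro h4
    have h5 : ((U k a n : ℕ) : ℤ) < (U k a m : ℕ) := by exact_mod_cast h4
    rw [h1, h2] at h5
    by_contra h6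
    have h7 : (m : ℤ) ≤ n := by exact_mod_cast not_lt.1 h6
    nlinarith
  · intro h4
    have h5 : (n : ℤ) < m := by exact_mod_cast h4
    have h6 : ((U k a n : ℕ) : ℤ) < (U k a m : ℕ) := by
      rw [h1, h2]
      nlinarith
    exact_mod_cast h6

lemma U_le_iff (h : Adm k a) {n m : ℕ} (hn : a.natAbs ≤ n) (hm : a.natAbs ≤ m) :
    U k a n ≤ U k a m ↔ n ≤ m := by
  rw [← not_lt, ← not_lt, U_lt_iff h hm hn]

lemma U_inj (h : Adm k a) {n m : ℕ} (hn : a.natAbs ≤ n) (hm : a.natAbs ≤ m)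
    (he : U k a n = U k a m) : n = m :=
  le_antisymm ((U_le_iff h hn hm).1 he.le) ((U_le_iff h hm hn).1 he.ge)

/-- A number `e` with `e ≡ 1` modulo `M` and `e ≡ 0` modulo `d`. -/
noncomputable def ee (k : ℕ) (a : ℤ) (d : ℕ) : ℕ :=
  if h : (Md k a).Coprime d then (Nat.chineseRemainder h 1 0 : ℕ) else 0

lemma ee_spec {d : ℕ} (h : (Md k a).Coprime d) :
    ee k a d ≡ 1 [MOD Md k a] ∧ ee k a d ≡ 0 [MOD d] := by
  unfold ee
  rw [dif_pos h]
  exact (Nat.chineseRemainder h 1 0).2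

/-- The residue class, as an integer. -/
noncomputable def rr (k : ℕ) (a : ℤ) (d : ℕ) : ℤ := a + k * ee k a d

lemma rr_coprime (h : Adm k a) {d : ℕ} (hd : (Md k a).Coprime d) :
    IsCoprime (rr k a d) ((k * Md k a * d : ℕ) : ℤ) := by
  obtain ⟨h1, h2⟩ := ee_spec hd
  have hk : IsCoprime (rr k a d) (k : ℤ) := by
    unfold rr
    have := h.cop.symm
    exact (IsCoprime.add_mul_left_left_iff).2 this
  have h3 : ((Md k a : ℕ) : ℤ) ∣ (ee k a d : ℤ) - 1 := by
    have := (Nat.modEq_iff_dvd.1 h1.symm)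
    simpa using this
  have ha : IsCoprime (rr k a d) a := by
    obtain ⟨t, ht⟩ := h3
    have h4 : a ∣ ((Md k a : ℕ) : ℤ) := a_dvd_Md
    obtain ⟨s, hs⟩ := h4
    have h5 : rr k a d = k + a * (1 + k * (s * t)) := by
      unfold rr
      have h6 : (ee k a d : ℤ) = 1 + a * s * t := by
        rw [← hs]
        linarith
      rw [h6]
      ring
    rw [h5]
    exact (IsCoprime.add_mul_left_left_iff).2 h.cop
  have hM : IsCoprime (rr k a d) ((Md k a : ℕ) : ℤ) := by
    unfold Md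
    rw [Nat.cast_mul]
    exact hk.mul_right (by
      have := (Int.isCoprime_iff_gcd_eq_one.1 ha)
      rw [Int.isCoprime_iff_gcd_eq_one]
      rw [Int.gcd_def] at this ⊢
      rwa [Int.natAbs_natCast])
  have hd' : IsCoprime (rr k a d) (d : ℤ) := by
    have h4 : (d : ℤ) ∣ (ee k a d : ℤ) := by
      have := (Nat.modEq_zero_iff_dvd.1 h2)
      exact_mod_cast this
    obtain ⟨t, ht⟩ := h4
    unfold rr
    rw [ht, show a + (k : ℤ) * (d * t) = a + d * (k * t) by ring]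
    refine (IsCoprime.add_mul_left_left_iff).2 ?_
    have h5 : IsCoprime ((Md k a : ℕ) : ℤ) (d : ℤ) := Nat.isCoprime_iff_coprime.2 hd
    have h6 : a ∣ ((Md k a : ℕ) : ℤ) := a_dvd_Md
    exact h5.of_isCoprime_of_dvd_left h6
  push_cast
  exact (hk.mul_right hM).mul_right hd'

lemma rr_unit (h : Adm k a) {d : ℕ} (hd : (Md k a).Coprime d) :
    IsUnit ((rr k a d : ℤ) : ZMod (k * Md k a * d)) := by
  rw [ZMod.coe_int_isUnit_iff_isCoprime]
  exact (rr_coprime h hd).symm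

/-- The congruence. -/
lemma congr_iff (h : Adm k a) {d n : ℕ} (hd : (Md k a).Coprime d) (hn : a.natAbs ≤ n) :
    ((U k a n : ℕ) : ZMod (k * Md k a * d)) = ((rr k a d : ℤ) : ZMod (k * Md k a * d)) ↔
      n ≡ 1 [MOD Md k a] ∧ d ∣ n := by
  obtain ⟨h1, h2⟩ := ee_spec hd
  have h3 : ((U k a n : ℕ) : ZMod (k * Md k a * d)) = (((k * n + a : ℤ)) : ZMod (k * Md k a * d)) := by
    rw [← U_cast h hn]
    push_cast
    rfl
  rw [h3, ZMod.intCast_eq_intCast_iff_dvd_sub]
  unfold rr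
  have hk0 : (k : ℤ) ≠ 0 := by
    have := h.k_pos
    omega
  have h4 : (a + (k : ℤ) * (ee k a d) - (k * n + a)) = k * ((ee k a d : ℤ) - n) := by ring
  rw [h4]
  push_cast
  rw [mul_assoc, mul_dvd_mul_iff_left hk0]
  constructor
  · intro h5
    have h6 : ((Md k a : ℕ) : ℤ) ∣ (ee k a d : ℤ) - n := (Dvd.intro _ rfl).trans h5
    have h7 : (d : ℤ) ∣ (ee k a d : ℤ) - n := (Dvd.intro_left _ rfl).trans h5
    refine ⟨(Nat.modEq_iff_dvd.2 h6).trans h1, ?_⟩
    exact (Nat.modEq_zero_iff_dvd).1 ((Nat.modEq_iff_dvd.2 h7).trans h2)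
  · rintro ⟨h5, h6⟩
    have h7 : ((Md k a : ℕ) : ℤ) ∣ (ee k a d : ℤ) - n := Nat.modEq_iff_dvd.1 (h5.trans h1.symm)
    have h8 : (d : ℤ) ∣ (ee k a d : ℤ) - n :=
      Nat.modEq_iff_dvd.1 (((Nat.modEq_zero_iff_dvd).2 h6).trans h2.symm)
    exact (Nat.isCoprime_iff_coprime.2 hd).mul_dvd h7 h8

/-- **The count** of `n` in terms of primes in an arithmetic progression. -/
lemma count_eq (h : Adm k a) {Y d : ℕ} (hY : a.natAbs ≤ Y) (hd : (Md k a).Coprime d) :
    ((Nn k a Y).filter (fun n => d ∣ n)).card =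
      ((Ico (U k a (2 * Y)) (U k a (3 * Y))).filter (fun p : ℕ => p.Prime ∧
        (p : ZMod (k * Md k a * d)) = ((rr k a d : ℤ) : ZMod (k * Md k a * d)))).card := by
  apply card_bij (fun n _ => U k a n)
  · intro n hn
    simp only [Nn, mem_filter, mem_Ico] at hn
    obtain ⟨⟨⟨h1, h2⟩, h3, h4⟩, h5⟩ := hn
    rw [mem_filter, mem_Ico]
    refine ⟨⟨(U_le_iff h (by omega) (by omega)).2 h1, (U_lt_iff h (by omega) (by omega)).2 h2⟩,
      h3, ?_⟩
    exact (congr_iff h hd (by omega)).2 ⟨h4, h5⟩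
  · intro n hn m hm he
    simp only [Nn, mem_filter, mem_Ico] at hn hm
    exact U_inj h (by omega) (by omega) he
  · intro p hp
    rw [mem_filter, mem_Ico] at hp
    obtain ⟨⟨h1, h2⟩, h3, h4⟩ := hp
    -- `p = k n + a`
    have h5 : (k : ℤ) ∣ (p : ℤ) - a := by
      have h6 : (((p : ℤ)) : ZMod (k * Md k a * d)) = ((rr k a d : ℤ) : ZMod (k * Md k a * d)) := by
        rw [← h4]
        push_cast
        rfl
      rw [ZMod.intCast_eq_intCast_iff_dvd_sub] at h6
      have h7 : (k : ℤ) ∣ rr k a d - p := by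
        refine dvd_trans ?_ h6
        push_cast
        exact ⟨(Md k a : ℤ) * d, by ring⟩
      have h8 : (k : ℤ) ∣ rr k a d - a := by
        unfold rr
        exact ⟨ee k a d, by ring⟩
      have h9 := dvd_sub h8 h7
      rwa [show rr k a d - a - (rr k a d - p) = (p : ℤ) - a by ring] at h9
    obtain ⟨m, hm⟩ := h5
    have hk1 : (1 : ℤ) ≤ k := by exact_mod_cast h.k_pos
    have h6 := U_cast h (show a.natAbs ≤ 2 * Y by omega)
    have h7 := U_cast h (show a.natAbs ≤ 3 * Y by omega)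
    have h8 : ((2 * Y : ℕ) : ℤ) ≤ m := by
      have h9 : ((U k a (2 * Y) : ℕ) : ℤ) ≤ p := by exact_mod_cast h1
      rw [h6] at h9
      by_contra h10
      have h11 : m + 1 ≤ ((2 * Y : ℕ) : ℤ) := by omega
      nlinarith
    have h9 : m < ((3 * Y : ℕ) : ℤ) := by
      have h9 : (p : ℤ) < ((U k a (3 * Y) : ℕ) : ℤ) := by exact_mod_cast h2
      rw [h7] at h9
      by_contra h10
      have h11 : ((3 * Y : ℕ) : ℤ) ≤ m := by omega
      nlinarith
    obtain ⟨n, rfl⟩ : ∃ n : ℕ, m = n := ⟨m.toNat, by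
      have : 0 ≤ m := le_trans (by positivity) h8
      omega⟩
    have h8' : 2 * Y ≤ n := by exact_mod_cast h8
    have h9' : n < 3 * Y := by exact_mod_cast h9
    have hpU : U k a n = p := by
      have h10 := U_cast h (show a.natAbs ≤ n by omega)
      have : ((U k a n : ℕ) : ℤ) = (p : ℤ) := by
        rw [h10]
        linarith
      exact_mod_cast this
    refine ⟨n, ?_, hpU⟩
    rw [← hpU] at h4
    obtain ⟨h10, h11⟩ := (congr_iff h hd (by omega)).1 h4
    simp only [Nn, mem_filter, mem_Ico]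
    rw [hpU]
    exact ⟨⟨⟨h8', h9'⟩, h3, h10⟩, h11⟩

end Pool.Agent.ChenShift
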