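import Pool.Agent.Work.MP_0c1432_nt_h67.Basic
import Pool.Agent.Work.Chen.A1

/-!
# The remainder terms, by Bombieri–Vinogradov
-/

set_option autoImplicit false

namespace Pool.Agent.ChenShift

open Finset Filter
open scoped Classical
open Pool.Agent.Chen

/-- The error term for the modulus `d`. -/
noncomputable def Er (k : ℕ) (a : ℤ) (Y d : ℕ) : ℝ :=
  |(((Nn k a Y).filter (fun n => d ∣ n)).card : ℝ) - XX k a Y / (d.totient : ℝ)|

lemma Er_nonneg (k : ℕ) (a : ℤ) (Y d : ℕ) : 0 ≤ Er k a Y d := abs_nonneg _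

/-- splitting of a window -/
lemma split_win {u v : ℕ} (hu : 1 ≤ u) (huv : u ≤ v) (R : ℕ → Prop) [DecidablePred R] :
    (((Ioc 0 (v - 1)).filter (fun n : ℕ => n.Prime ∧ R n)).card : ℝ) =
      (((Ioc 0 (u - 1)).filter (fun n : ℕ => n.Prime ∧ R n)).card : ℝ) +
        (((Ico u v).filter (fun n : ℕ => n.Prime ∧ R n)).card : ℝ) := by
  have h1 : (Ioc 0 (v - 1)).filter (fun n : ℕ => n.Prime ∧ R n) =
      (Ioc 0 (u - 1)).filter (fun n : ℕ => n.Prime ∧ R n) ∪
        (Ico u v).filter (fun n : ℕ => n.Prime ∧ R n) := by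
    rw [← filter_union]
    congr 1
    ext n
    simp only [mem_union, mem_Ioc, mem_Ico]
    omega
  rw [h1, card_union_of_disjoint, Nat.cast_add]
  apply disjoint_filter_filter
  rw [disjoint_left]
  intro n h2 h3
  rw [mem_Ioc] at h2
  rw [mem_Ico] at h3
  omega

/-- The residue classes for `Bombieri–Vinogradov`. -/
noncomputable def cl (k : ℕ) (a : ℤ) (q : ℕ) : ZMod q :=
  if IsUnit ((rr k a (q / (k * Md k a)) : ℤ) : ZMod q) then
    ((rr k a (q / (k * Md k a)) : ℤ) : ZMod q) else 1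

lemma cl_unit (k : ℕ) (a : ℤ) (q : ℕ) : IsUnit (cl k a q) := by
  unfold cl
  split_ifs with h
  · exact h
  · exact isUnit_one

lemma cl_eq {k : ℕ} {a : ℤ} (h : Adm k a) {d : ℕ} (hd : (Md k a).Coprime d) :
    cl k a (k * Md k a * d) = ((rr k a d : ℤ) : ZMod (k * Md k a * d)) := by
  unfold cl
  have h1 : k * Md k a * d / (k * Md k a) = d :=
    Nat.mul_div_cancel_left _ (Nat.mul_pos h.k_pos (Md_pos h))
  rw [h1, if_pos (rr_unit h hd)]

/-- The sum of the errors, by Bombieri–Vinogradov. -/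
theorem err_sum {k : ℕ} {a : ℤ} (hka : Adm k a) (A : ℕ) : ∃ (B : ℕ) (C : ℝ), 0 < C ∧
    ∀ Y : ℕ, a.natAbs + 1 ≤ Y → ∀ Q : ℕ,
    (Q : ℝ) ≤ √(4 * k * Y : ℝ) / (Real.log (4 * k * Y)) ^ B → ∀ D : Finset ℕ,
    (∀ d ∈ D, 0 < d ∧ k * Md k a * d ≤ Q ∧ (Md k a).Coprime d) →
    ∑ d ∈ D, Er k a Y d ≤ C * (4 * k * Y / (Real.log (4 * k * Y)) ^ A) := by
  obtain ⟨B, C, hC, hBV⟩ := BV.main_bvp A
  refine ⟨B, 2 * C, by positivity, fun Y hY Q hQ D hD => ?_⟩
  have hY1 : (1 : ℝ) ≤ Y := by exact_mod_cast (by omega : 1 ≤ Y)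
  have hk1 : (1 : ℝ) ≤ k := by exact_mod_cast hka.k_pos
  have hkM : 0 < k * Md k a := Nat.mul_pos hka.k_pos (Md_pos hka)
  have hX2 : (2 : ℝ) ≤ 4 * k * Y := by nlinarith
  set u := U k a (2 * Y) with hu
  set v := U k a (3 * Y) with hv
  have huc := U_cast hka (show a.natAbs ≤ 2 * Y by omega)
  have hvc := U_cast hka (show a.natAbs ≤ 3 * Y by omega)
  have hk1' : (1 : ℤ) ≤ k := by exact_mod_cast hka.k_pos
  have hu1 : 1 ≤ u := by
    have h1 : (0 : ℤ) < (U k a (2 * Y) : ℕ) := by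
      rw [huc]
      have h2 : -(a.natAbs : ℤ) ≤ a := by omega
      have h3 : ((a.natAbs : ℤ)) + 1 ≤ Y := by exact_mod_cast hY
      push_cast
      nlinarith
    exact_mod_cast h1
  have huv : u ≤ v := (U_le_iff hka (by omega) (by omega)).2 (by omega)
  have hvX : ((v - 1 : ℕ) : ℝ) ≤ 4 * k * Y := by
    have h1 : ((U k a (3 * Y) : ℕ) : ℤ) ≤ ((4 * k * Y : ℕ) : ℤ) := by
      rw [hvc]
      have h2 : a ≤ (a.natAbs : ℤ) := by omega
      have h3 : ((a.natAbs : ℤ)) + 1 ≤ Y := by exact_mod_cast hY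
      push_cast
      nlinarith
    have h2 : v ≤ 4 * k * Y := by exact_mod_cast h1
    have h3 : v - 1 ≤ 4 * k * Y := by omega
    exact_mod_cast h3
  have huX : ((u - 1 : ℕ) : ℝ) ≤ 4 * k * Y := by
    refine le_trans ?_ hvX
    exact_mod_cast (by omega : u - 1 ≤ v - 1)
  have h1 := hBV (4 * k * Y) hX2 Q hQ (fun _ => v - 1) (fun _ => hvX) (cl k a) (cl_unit k a)
  have h2 := hBV (4 * k * Y) hX2 Q hQ (fun _ => u - 1) (fun _ => huX) (cl k a) (cl_unit k a)
  set F : ℕ → ℝ := fun m => |((((Ioc 0 (v - 1)).filter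
        (fun n : ℕ => n.Prime ∧ (n : ZMod m) = cl k a m)).card : ℝ)
        - (((Ioc 0 (v - 1)).filter Nat.Prime).card : ℝ) / (m.totient : ℝ))| +
      |((((Ioc 0 (u - 1)).filter (fun n : ℕ => n.Prime ∧ (n : ZMod m) = cl k a m)).card : ℝ)
        - (((Ioc 0 (u - 1)).filter Nat.Prime).card : ℝ) / (m.totient : ℝ))| with hF
  have h3 : ∀ d ∈ D, Er k a Y d ≤ F (k * Md k a * d) := by
    intro d hd
    obtain ⟨hd0, hdQ, hdc⟩ := hD d hd
    have h4 := split_win hu1 huv (fun n : ℕ => (n : ZMod (k * Md k a * d)) =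
      cl k a (k * Md k a * d))
    have h5 := split_win hu1 huv (fun _ : ℕ => True)
    have h6 := count_eq hka (Y := Y) (d := d) (by omega) hdc
    rw [← cl_eq hka hdc] at h6
    simp only [and_true] at h5
    have hcop : (k * Md k a).Coprime d :=
      Nat.Coprime.mul_left (Nat.Coprime.coprime_dvd_left k_dvd_Md hdc) hdc
    unfold Er XX
    rw [h6]
    simp only [hF]
    rw [Nat.totient_mul hcop]
    rw [show ((((Ico (U k a (2 * Y)) (U k a (3 * Y))).filter (fun p : ℕ => p.Prime ∧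
        (p : ZMod (k * Md k a * d)) = cl k a (k * Md k a * d))).card : ℝ)) -
        ((((Ico (U k a (2 * Y)) (U k a (3 * Y))).filter Nat.Prime).card : ℝ) /
          ((k * Md k a).totient : ℝ)) / (d.totient : ℝ)
      = ((((Ioc 0 (v - 1)).filter (fun n : ℕ => n.Prime ∧
          (n : ZMod (k * Md k a * d)) = cl k a (k * Md k a * d))).card : ℝ)
        - (((Ioc 0 (v - 1)).filter Nat.Prime).card : ℝ) /
          (((k * Md k a).totient * d.totient : ℕ) : ℝ)) -
        ((((Ioc 0 (u - 1)).filter (fun n : ℕ => n.Prime ∧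
          (n : ZMod (k * Md k a * d)) = cl k a (k * Md k a * d))).card : ℝ)
        - (((Ioc 0 (u - 1)).filter Nat.Prime).card : ℝ) /
          (((k * Md k a).totient * d.totient : ℕ) : ℝ)) by
      rw [h4, h5, div_div]
      push_cast
      ring]
    exact abs_sub _ _
  have h4 : Set.InjOn (fun d => k * Md k a * d) (D : Set ℕ) := by
    intro d _ d' _ h
    exact Nat.eq_of_mul_eq_mul_left hkM h
  calc ∑ d ∈ D, Er k a Y d ≤ ∑ d ∈ D, F (k * Md k a * d) := sum_le_sum h3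
    _ = ∑ m ∈ D.image (fun d => k * Md k a * d), F m := (sum_image h4).symm
    _ ≤ ∑ m ∈ Ioc 0 Q, F m := by
        refine sum_le_sum_of_subset_of_nonneg ?_ (fun _ _ _ => by simp only [hF]; positivity)
        intro m hm
        rw [mem_image] at hm
        obtain ⟨d, hd, rfl⟩ := hm
        obtain ⟨hd0, hdQ, hdc⟩ := hD d hd
        exact mem_Ioc.2 ⟨Nat.mul_pos hkM hd0, hdQ⟩
    _ ≤ C * (4 * k * Y / (Real.log (4 * k * Y)) ^ A) +
          C * (4 * k * Y / (Real.log (4 * k * Y)) ^ A) := by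
        simp only [hF]
        rw [sum_add_distrib]
        exact add_le_add h1 h2
    _ = _ := by ring

/-- eventually in `N = 4 Y` -/
lemma ev_four {p : ℝ → Prop} (h : ∀ᶠ x : ℝ in atTop, p x) :
    ∃ Y₀ : ℕ, ∀ Y ≥ Y₀, p ((4 * Y : ℕ) : ℝ) := by
  obtain ⟨N₀, hN₀⟩ := ev_nat h
  exact ⟨N₀, fun Y hY => hN₀ (4 * Y) (by omega)⟩

lemma two_le_z {N : ℝ} (hN : 256 ≤ N) : 2 ≤ N ^ (1 / 8 : ℝ) := by
  calc (2 : ℝ) = (256 : ℝ) ^ (1 / 8 : ℝ) := by
        rw [show (256 : ℝ) = 2 ^ (8 : ℝ) by norm_num, ← Real.rpow_mul (by norm_num)]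
        norm_num
    _ ≤ _ := Real.rpow_le_rpow (by norm_num) hN (by norm_num)

/-- **The remainder term**: small against the main term. -/
theorem err_small (hPX : Stmt_PX) {k : ℕ} {a : ℤ} (hka : Adm k a) (δ η K : ℝ) (hδ : 0 < δ)
    (hη : 0 < η) (hK : 0 < K) :
    ∃ Y₀ : ℕ, ∀ Y ≥ Y₀, ∀ D : Finset ℕ,
    (∀ d ∈ D, 0 < d ∧ (d : ℝ) < ((4 * Y : ℕ) : ℝ) ^ (1 / 2 - η) * K ∧ (Md k a).Coprime d) →
    ∑ d ∈ D, Er k a Y d ≤
      δ * (XX k a Y * VN (Md k a) (((4 * Y : ℕ) : ℝ) ^ (1 / 8 : ℝ))) := by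
  obtain ⟨B, C, hC, hE⟩ := err_sum hka 3
  obtain ⟨Y₁, h1⟩ := hPX k a hka (1 / 2) (by norm_num)
  obtain ⟨c, hc, hV⟩ := VN_lower
  have hM0 : 0 < Md k a := Md_pos hka
  have hk1 : (1 : ℝ) ≤ k := by exact_mod_cast hka.k_pos
  have hM1 : (1 : ℝ) ≤ Md k a := by exact_mod_cast hM0
  set φ : ℝ := ((Md k a).totient : ℝ) with hφ
  have hφ0 : 0 < φ := by
    rw [hφ]
    exact_mod_cast Nat.totient_pos.2 hM0
  obtain ⟨Y₂, h2⟩ := ev_four ((log_pow_le B η (k * Md k a * K * 2 ^ B) hη (by positivity)).and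
    ((Real.tendsto_log_atTop.eventually_ge_atTop (C * k * φ / (c * δ))).and
      ((eventually_ge_atTop (256 : ℝ)).and (eventually_ge_atTop (k : ℝ)))))
  refine ⟨max Y₁ (max Y₂ (a.natAbs + 1)), fun Y hY D hD => ?_⟩
  have hY1 : Y₁ ≤ Y := (le_max_left _ _).trans hY
  have hY2 : Y₂ ≤ Y := (le_max_left _ _).trans ((le_max_right _ _).trans hY)
  have hY3 : a.natAbs + 1 ≤ Y := (le_max_right _ _).trans ((le_max_right _ _).trans hY)
  obtain ⟨h3, h4, h5, h6⟩ := h2 Y hY2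
  have hYc : ((4 * Y : ℕ) : ℝ) = 4 * Y := by push_cast; ring
  set N : ℝ := ((4 * Y : ℕ) : ℝ) with hN
  have hN0 : (0 : ℝ) < N := by linarith
  have hY1' : (1 : ℝ) ≤ Y := by exact_mod_cast (by omega : 1 ≤ Y)
  have hl0 : 0 < Real.log N := Real.log_pos (by linarith)
  have hX : (4 * k * Y : ℝ) = k * N := by rw [hYc]; ring
  have hl1 : Real.log N ≤ Real.log (4 * k * Y) := by
    rw [hX]
    exact Real.log_le_log hN0 (by nlinarith)
  have hl2 : Real.log (4 * k * Y) ≤ 2 * Real.log N := by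
    rw [hX, Real.log_mul (by positivity) hN0.ne']
    have := Real.log_le_log (by linarith) h6
    linarith
  -- the sum of the errors
  have h7 : ∑ d ∈ D, Er k a Y d ≤ C * (4 * k * Y / (Real.log (4 * k * Y)) ^ 3) := by
    apply hE Y hY3 ⌊k * Md k a * (N ^ (1 / 2 - η) * K)⌋₊
    · refine (Nat.floor_le (by positivity)).trans ?_
      rw [le_div_iff₀ (pow_pos (by linarith : 0 < Real.log (4 * k * Y)) B)]
      have h8 : (Real.log (4 * k * Y)) ^ B ≤ (2 * Real.log N) ^ B :=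
        pow_le_pow_left₀ (by linarith) hl2 B
      calc k * Md k a * (N ^ (1 / 2 - η) * K) * (Real.log (4 * k * Y)) ^ B
          ≤ k * Md k a * (N ^ (1 / 2 - η) * K) * (2 * Real.log N) ^ B := by gcongr
        _ = N ^ (1 / 2 - η) * (k * Md k a * K * 2 ^ B * (Real.log N) ^ B) := by
            rw [mul_pow]; ring
        _ ≤ N ^ (1 / 2 - η) * N ^ η := by gcongr
        _ = √N := by
            rw [← Real.rpow_add hN0, Real.sqrt_eq_rpow]
            congr 1
            ring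
        _ ≤ √(4 * k * Y) := by
            apply Real.sqrt_le_sqrt
            rw [hX]
            nlinarith
    · intro d hd
      obtain ⟨h8, h9, h10⟩ := hD d hd
      refine ⟨h8, Nat.le_floor ?_, h10⟩
      push_cast
      exact mul_le_mul_of_nonneg_left h9.le (by positivity)
  refine h7.trans ?_
  have h8 := h1 Y hY1
  have h9 : c / Real.log (N ^ (1 / 8 : ℝ)) ≤ VN (Md k a) (N ^ (1 / 8 : ℝ)) :=
    hV (Md k a) (Md_even hka) _ (two_le_z h5)
  rw [Real.log_rpow hN0] at h9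
  set V := VN (Md k a) (N ^ (1 / 8 : ℝ))
  set L := Real.log N
  have h10 : C * (4 * k * Y / (Real.log (4 * k * Y)) ^ 3) ≤ C * (4 * k * Y / L ^ 3) := by gcongr
  refine h10.trans ?_
  have h11 : ((1 / 2) * (Y / L / φ)) * (c / (1 / 8 * L)) ≤ XX k a Y * V := by
    apply mul_le_mul _ h9 (by positivity)
    · refine le_trans (by positivity) h8
    · refine le_trans (le_of_eq ?_) h8
      norm_num
  have h12 : δ * (((1 / 2) * (Y / L / φ)) * (c / (1 / 8 * L))) ≤ δ * (XX k a Y * V) := by gcongr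
  refine le_trans ?_ h12
  have h13 : C * (4 * k * Y / L ^ 3) = (4 * Y / (L ^ 2 * φ)) * (C * k * φ / L) := by
    field_simp
  have h14 : δ * (((1 / 2) * (Y / L / φ)) * (c / (1 / 8 * L))) = (4 * Y / (L ^ 2 * φ)) * (c * δ) := by
    field_simp
    ring
  rw [h13, h14]
  apply mul_le_mul_of_nonneg_left _ (by positivity)
  rw [div_le_iff₀ hl0]
  rw [div_le_iff₀ (by positivity)] at h4
  linarith

end Pool.Agent.ChenShift
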