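import Pool.Agent.Work.MP_0c1432_nt_h67.Basic
import Pool.Agent.Work.MP_0c1432_nt_h67.ERR
import Pool.Agent.Work.PNT70.PNT

/-!
# Block PX: the primes in the window
-/

set_option autoImplicit false

namespace Pool.Agent.ChenShift

open Finset Filter
open scoped Classical Topology
open Pool.Agent.Chen

lemma tendsto_pi (c b : ℝ) (hc : 0 < c) :
    Tendsto (fun Y : ℕ => (Nat.primeCounting ⌊c * Y + b⌋₊ : ℝ) * Real.log ((4 * Y : ℕ) : ℝ) / Y)
      atTop (𝓝 c) := by
  have hY : Tendsto (fun Y : ℕ => (Y : ℝ)) atTop atTop := tendsto_natCast_atTop_atTop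
  have hx : Tendsto (fun Y : ℕ => c * (Y : ℝ) + b) atTop atTop :=
    tendsto_atTop_add_const_right _ _ (hY.const_mul_atTop hc)
  have h1 := Pool.Agent.Work.PNT70.primeCounting_tendsto.comp hx
  have h2 : Tendsto (fun Y : ℕ => c + b / (Y : ℝ)) atTop (𝓝 c) := by
    have := (tendsto_const_nhds (x := b)).div_atTop hY
    simpa using this.const_add c
  have hl : Tendsto (fun Y : ℕ => Real.log (Y : ℝ)) atTop atTop := Real.tendsto_log_atTop.comp hY
  have h3 : Tendsto (fun Y : ℕ => (1 + Real.log 4 / Real.log (Y : ℝ)) /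
      (1 + Real.log (c + b / (Y : ℝ)) / Real.log (Y : ℝ))) atTop (𝓝 1) := by
    have h4 : Tendsto (fun Y : ℕ => Real.log 4 / Real.log (Y : ℝ)) atTop (𝓝 0) :=
      tendsto_const_nhds.div_atTop hl
    have h5 : Tendsto (fun Y : ℕ => Real.log (c + b / (Y : ℝ)) / Real.log (Y : ℝ)) atTop (𝓝 0) := by
      have h6 : Tendsto (fun Y : ℕ => Real.log (c + b / (Y : ℝ))) atTop (𝓝 (Real.log c)) :=
        ((Real.continuousAt_log hc.ne').tendsto).comp h2
      exact h6.div_atTop hl
    have h7 := (h4.const_add 1).div (h5.const_add 1) (by norm_num)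
    have e0 : ((1 : ℝ) + 0) / (1 + 0) = 1 := by norm_num
    rw [e0] at h7
    exact h7
  have h4 := (h1.mul h2).mul h3
  simp only [one_mul, mul_one] at h4
  refine h4.congr' ?_
  have h5 : ∀ᶠ Y : ℕ in atTop, 0 < c + b / (Y : ℝ) := h2.eventually (lt_mem_nhds hc)
  filter_upwards [hx.eventually_gt_atTop 1, eventually_gt_atTop 1, h5] with Y h6 h7 h8
  have hY1 : (1 : ℝ) < Y := by exact_mod_cast h7
  have hY0 : (0 : ℝ) < Y := by linarith
  have hlY : 0 < Real.log (Y : ℝ) := Real.log_pos hY1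
  have hlx : 0 < Real.log (c * (Y : ℝ) + b) := Real.log_pos h6
  have e1 : c * (Y : ℝ) + b = Y * (c + b / Y) := by field_simp
  have e2 : Real.log (c * (Y : ℝ) + b) = Real.log Y + Real.log (c + b / Y) := by
    rw [e1, Real.log_mul hY0.ne' h8.ne']
  have e3 : Real.log ((4 * Y : ℕ) : ℝ) = Real.log Y + Real.log 4 := by
    push_cast
    rw [Real.log_mul (by norm_num) hY0.ne']
    ring
  have e4 : (1 + Real.log 4 / Real.log (Y : ℝ)) /
      (1 + Real.log (c + b / (Y : ℝ)) / Real.log (Y : ℝ)) =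
      Real.log ((4 * Y : ℕ) : ℝ) / Real.log (c * (Y : ℝ) + b) := by
    rw [e2, e3]
    rw [e2] at hlx
    have : 1 + Real.log (c + b / (Y : ℝ)) / Real.log (Y : ℝ) ≠ 0 := by
      have h9 : 1 + Real.log (c + b / (Y : ℝ)) / Real.log (Y : ℝ) =
          (Real.log Y + Real.log (c + b / Y)) / Real.log Y := by field_simp
      rw [h9]
      positivity
    field_simp
  have e5 : c + b / (Y : ℝ) = (c * Y + b) / Y := by field_simp
  simp only [Function.comp]
  rw [e4, e5]
  have hx0 : c * (Y : ℝ) + b ≠ 0 := by linarith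
  field_simp

lemma card_win {u v : ℕ} (hu : 1 ≤ u) (huv : u ≤ v) :
    (((Ico u v).filter Nat.Prime).card : ℝ) =
      Nat.primeCounting (v - 1) - Nat.primeCounting (u - 1) := by
  have h1 : ∀ n : ℕ, Nat.primeCounting n = ((Ioc 0 n).filter Nat.Prime).card := by
    intro n
    rw [Nat.primeCounting, Nat.primeCounting', Nat.count_eq_card_filter_range]
    congr 1
    ext p
    simp only [mem_filter, mem_range, mem_Ioc]
    constructor
    · rintro ⟨a, b⟩
      exact ⟨⟨b.pos, by omega⟩, b⟩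
    · rintro ⟨⟨a, b⟩, c⟩
      exact ⟨by omega, c⟩
  have h2 := split_win hu huv (fun _ : ℕ => True)
  simp only [and_true] at h2
  rw [h1, h1, h2]
  ring

theorem PX : Stmt_PX := by
  intro k a hka δ hδ
  have hk0 : (0 : ℝ) < k := by exact_mod_cast hka.k_pos
  have h1 := (tendsto_pi (3 * k) (a - 1) (by positivity)).sub
    (tendsto_pi (2 * k) (a - 1) (by positivity))
  have e : (3 * k : ℝ) - 2 * k = k := by ring
  rw [e] at h1
  have h2 : (1 - δ) * k < (k : ℝ) := by nlinarith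
  have h3 := h1.eventually_const_lt h2
  obtain ⟨Y₀, hY₀⟩ := eventually_atTop.1 (h3.and (eventually_ge_atTop (a.natAbs + 2)))
  refine ⟨Y₀, fun Y hY => ?_⟩
  obtain ⟨h4, h5⟩ := hY₀ Y hY
  have hY1 : (1 : ℝ) < Y := by exact_mod_cast (by omega : 1 < Y)
  have hY0 : (0 : ℝ) < Y := by linarith
  have hl : 0 < Real.log ((4 * Y : ℕ) : ℝ) := by
    apply Real.log_pos
    push_cast
    linarith
  have huc := U_cast hka (show a.natAbs ≤ 2 * Y by omega)
  have hvc := U_cast hka (show a.natAbs ≤ 3 * Y by omega)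
  have hk1' : (1 : ℤ) ≤ k := by exact_mod_cast hka.k_pos
  have hu1 : 1 ≤ U k a (2 * Y) := by
    have h1 : (0 : ℤ) < (U k a (2 * Y) : ℕ) := by
      rw [huc]
      have h2 : -(a.natAbs : ℤ) ≤ a := by omega
      have h3 : ((a.natAbs : ℤ)) + 1 ≤ Y := by exact_mod_cast (by omega : a.natAbs + 1 ≤ Y)
      push_cast
      nlinarith
    exact_mod_cast h1
  have huv : U k a (2 * Y) ≤ U k a (3 * Y) := (U_le_iff hka (by omega) (by omega)).2 (by omega)
  have hfu : ⌊(2 * k : ℝ) * Y + (a - 1)⌋₊ = U k a (2 * Y) - 1 := by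
    have h6 : (2 * k : ℝ) * Y + (a - 1) = ((U k a (2 * Y) - 1 : ℕ) : ℝ) := by
      rw [Nat.cast_sub hu1, Nat.cast_one]
      have : ((U k a (2 * Y) : ℕ) : ℝ) = ((k * (2 * Y : ℕ) + a : ℤ) : ℝ) := by
        rw [← huc]
        push_cast
        rfl
      rw [this]
      push_cast
      ring
    rw [h6, Nat.floor_natCast]
  have hfv : ⌊(3 * k : ℝ) * Y + (a - 1)⌋₊ = U k a (3 * Y) - 1 := by
    have h6 : (3 * k : ℝ) * Y + (a - 1) = ((U k a (3 * Y) - 1 : ℕ) : ℝ) := by
      rw [Nat.cast_sub (hu1.trans huv), Nat.cast_one]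
      have : ((U k a (3 * Y) : ℕ) : ℝ) = ((k * (3 * Y : ℕ) + a : ℤ) : ℝ) := by
        rw [← hvc]
        push_cast
        rfl
      rw [this]
      push_cast
      ring
    rw [h6, Nat.floor_natCast]
  rw [hfu, hfv] at h4
  have hM0 : 0 < (Md k a).totient := Nat.totient_pos.2 (Md_pos hka)
  have htot : (k * Md k a).totient = k * (Md k a).totient := by
    have h6 := Nat.totient_gcd_mul_totient_mul k (Md k a)
    rw [Nat.gcd_eq_left k_dvd_Md] at h6
    have h7 : 0 < k.totient := Nat.totient_pos.2 hka.k_pos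
    apply Nat.eq_of_mul_eq_mul_left h7
    rw [h6]
    ring
  unfold XX
  rw [card_win hu1 huv, htot]
  push_cast
  push_cast at h4 hl
  have hφ : (0 : ℝ) < (Md k a).totient := by exact_mod_cast hM0
  rw [← sub_div, ← sub_mul, lt_div_iff₀ hY0] at h4
  rw [mul_div_assoc', mul_div_assoc', div_div, div_le_div_iff₀ (by positivity) (by positivity)]
  have h6 : (1 - δ) * Y * (k * ((Md k a).totient : ℝ)) = (1 - δ) * k * Y * ((Md k a).totient : ℝ) := by
    ring
  rw [h6]
  calc (1 - δ) * k * Y * ((Md k a).totient : ℝ)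
      ≤ ((Nat.primeCounting (U k a (3 * Y) - 1) : ℝ) - (Nat.primeCounting (U k a (2 * Y) - 1) : ℝ)) *
        Real.log (4 * Y) * ((Md k a).totient : ℝ) := mul_le_mul_of_nonneg_right h4.le hφ.le
    _ = _ := by ring

end Pool.Agent.ChenShift
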