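import Pool.Agent.Work.MP_0c1432_nt_h67.WT
import Pool.Agent.Work.MP_0c1432_nt_h67.PX
import Pool.Agent.Work.MP_0c1432_nt_h67.B1
import Pool.Agent.Work.MP_0c1432_nt_h67.BQ
import Pool.Agent.Work.MP_0c1432_nt_h67.BB2
import Pool.Agent.Work.Chen.Main

/-!
# Chen's theorem for the numbers `n` with `k n + a` prime
-/

set_option autoImplicit false

namespace Pool.Agent.ChenShift

open Finset Filter
open scoped Classical Topology
open Pool.Agent.Chen Pool.Agent.Chen.FINproof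

theorem CS : Stmt_CS := by
  intro k a hka
  have hPX : Stmt_PX := PX
  obtain ⟨A, hA⟩ : ∃ A, LinProp A := LinearSieve.linear_sieve
  have hA0 : 0 < A := hA.1
  set J : ℝ := ∫ β in (1 / 8 : ℝ)..(1 / 3), Real.log (2 - 3 * β) / (β * (1 - β)) with hJdef
  have hJ0 : 0 ≤ J := by
    rw [hJdef]
    refine intervalIntegral.integral_nonneg (by norm_num) fun β hβ => ?_
    have h1 : 0 ≤ Real.log (2 - 3 * β) := Real.log_nonneg (by linarith [hβ.2])
    have h2 : 0 < β * (1 - β) := mul_pos (by linarith [hβ.1]) (by linarith [hβ.2])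
    positivity
  have hJ25 : J < 2 / 5 := NUM.1
  set κ : ℝ := 2 * Real.log 3 - Real.log 6 - J with hκdef
  have hκ0 : 0 < κ := by have := NUM.2; rw [hκdef]; linarith
  set δ : ℝ := min (1 / 2) (A * κ / (16 * (3 + A))) with hδdef
  have hδ0 : 0 < δ := by rw [hδdef]; exact lt_min (by norm_num) (by positivity)
  have hδ2 : δ ≤ 1 / 2 := min_le_left _ _
  have hδκ : δ * (3 + A) ≤ A * κ / 16 := by
    have h1 : δ ≤ A * κ / (16 * (3 + A)) := min_le_right _ _
    calc δ * (3 + A) ≤ A * κ / (16 * (3 + A)) * (3 + A) :=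
          mul_le_mul_of_nonneg_right h1 (by positivity)
      _ = A * κ / 16 := by field_simp
  obtain ⟨N1, h1⟩ := B1 hPX A hA k a hka δ hδ0
  obtain ⟨N2, h2⟩ := BQ hPX A hA k a hka δ hδ0
  obtain ⟨N3, h3⟩ := BB hPX A hA k a hka δ hδ0
  obtain ⟨N4, h4⟩ := XB PSblock 1 δ hδ0
  obtain ⟨N5, h5⟩ := hPX k a hka δ hδ0
  obtain ⟨cv, hcv, h6⟩ := VN_lower
  set φ : ℝ := ((Md k a).totient : ℝ) with hφ
  have hφ0 : 0 < φ := by
    rw [hφ]
    exact_mod_cast Nat.totient_pos.2 (Md_pos hka)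
  set c0 : ℝ := cv * (A * κ / 16) / (2 * φ) with hc0
  have hc0pos : 0 < c0 := by positivity
  refine ⟨c0 / 2, by positivity, ?_⟩
  have ev1 := log_pow_small 2 (1 / 8) (c0 / 2 / 4) (by norm_num) (by positivity)
  have ev2 := log_pow_small 2 (1 / 2) (c0 / 2 / 16) (by norm_num) (by positivity)
  have ev4 : ∀ᶠ N : ℕ in atTop, (256 : ℝ) ≤ N :=
    tendsto_natCast_atTop_atTop.eventually_ge_atTop 256
  have ev5 : ∀ᶠ N : ℕ in atTop, (4 : ℝ) ≤ Real.log N :=
    (Real.tendsto_log_atTop.comp tendsto_natCast_atTop_atTop).eventually_ge_atTop 4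
  obtain ⟨N7, h7⟩ := eventually_atTop.1 (ev1.and (ev2.and (ev4.and ev5)))
  refine ⟨max N1 (max N2 (max N3 (max N4 (max N5 (max N7 1))))), fun Y hY => ?_⟩
  simp only [ge_iff_le, max_le_iff] at hY
  obtain ⟨hN1, hN2, hN3, hN4, hN5, hN7, hY1⟩ := hY
  have b1 := h1 Y hN1
  have b2 := h2 Y hN2
  have b3 := h3 Y hN3
  have b5 := h5 Y hN5
  obtain ⟨N, hN⟩ : ∃ N : ℕ, N = 4 * Y := ⟨_, rfl⟩
  rw [← hN] at b1 b2 b3 b5 ⊢
  obtain ⟨e1, e2, e4, e5⟩ := h7 N (by omega)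
  have hNY : (N : ℝ) = 4 * Y := by rw [hN]; push_cast; ring
  have hNpos : (0 : ℝ) < N := by linarith
  set L : ℝ := Real.log N with hLdef
  have hL0 : 0 < L := by linarith
  have hYpos : (0 : ℝ) < Y := by exact_mod_cast hY1
  have hR : Reg 1 N Y := by
    refine ⟨?_, by omega, ?_⟩
    · rw [hN]
      exact ⟨2 * Y, by ring⟩
    · rw [pow_one]
      calc (N : ℝ) = Y * 4 := by rw [hNY]; ring
        _ ≤ Y * Real.log N := mul_le_mul_of_nonneg_left e5 hYpos.le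
  have b4 := h4 N (by omega) Y hR
  set z : ℝ := (N : ℝ) ^ (1 / 8 : ℝ) with hz
  set y : ℝ := (N : ℝ) ^ (1 / 3 : ℝ) with hy
  have hz0 : 0 < z := Real.rpow_pos_of_pos hNpos _
  have hz2 : 2 ≤ z := two_le_z e4
  have hzy : z ≤ y := Real.rpow_le_rpow_of_exponent_le (by linarith) (by norm_num)
  have hy3 : (N : ℝ) ≤ y ^ 3 := by
    rw [hy, ← Real.rpow_natCast, ← Real.rpow_mul hNpos.le]
    norm_num
  have hci := WT k a hka Y z y hY1 hz2 hzy (by rw [← hN]; exact hy3)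
  rw [← hN] at hci
  set P : ℝ := XX k a Y with hP
  set V : ℝ := VN (Md k a) z with hV
  have hVlow : cv / L ≤ V := by
    refine le_trans ?_ (h6 (Md k a) (Md_even hka) z hz2)
    have e3 : Real.log z = 1 / 8 * L := by
      rw [hz, Real.log_rpow hNpos]
    rw [e3]
    apply div_le_div_of_nonneg_left hcv.le (by positivity)
    linarith
  have hV0 : 0 ≤ V := le_trans (by positivity) hVlow
  have hT : ((TB N Y z y).card : ℝ) / φ ≤ (J + δ) * (Y / L / φ) := by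
    have b4' : ((TB N Y z y).card : ℝ) ≤ (J + δ) * (Y / L) := b4
    rw [div_le_iff₀ hφ0]
    refine b4'.trans (le_of_eq ?_)
    field_simp
  have hk := key A J κ δ P V (((TB N Y z y).card : ℝ) / φ) (Y / L / φ) (T1 k a Y z : ℝ)
    (∑ q ∈ Qs (Md k a) z y, (Tq k a Y z q : ℝ)) (T3 k a Y z y : ℝ) hA0 hJ0 hJ25.le hκdef hδ0 hδ2 hδκ
    (XX_nonneg k a Y) hV0 (by positivity) b5 hT b1 b2 b3
  -- the main term
  have hPlow : 1 / 2 * (Y / L / φ) ≤ P := by
    refine le_trans ?_ b5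
    exact mul_le_mul_of_nonneg_right (by linarith) (by positivity)
  have hmain : c0 * (Y / L ^ 2) ≤ P * V * (A * κ / 16) := by
    have e5 : (1 / 2 * (Y / L / φ)) * (cv / L) ≤ P * V :=
      mul_le_mul hPlow hVlow (by positivity) (XX_nonneg k a Y)
    have e6 := mul_le_mul_of_nonneg_right e5 (by positivity : 0 ≤ A * κ / 16)
    refine le_trans (le_of_eq ?_) e6
    rw [hc0]
    field_simp
  -- the error term
  have herr : 2 * Y / z + √(N : ℝ) + 1 ≤ c0 / 2 * (Y / L ^ 2) := by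
    have f1 : 2 * Y / z ≤ c0 / 2 / 2 * (Y / L ^ 2) := by
      rw [div_le_iff₀ hz0]
      have : L ^ 2 ≤ c0 / 2 / 4 * z := e1
      have h9 : 2 * (Y : ℝ) * L ^ 2 ≤ 2 * Y * (c0 / 2 / 4 * z) :=
        mul_le_mul_of_nonneg_left this (by positivity)
      rw [show c0 / 2 / 2 * ((Y : ℝ) / L ^ 2) * z = (2 * Y * (c0 / 2 / 4 * z)) / L ^ 2 by ring,
        le_div_iff₀ (by positivity)]
      exact h9
    have f2 : √(N : ℝ) + 1 ≤ c0 / 2 / 2 * (Y / L ^ 2) := by
      have g1 : 1 ≤ √(N : ℝ) := by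
        rw [Real.one_le_sqrt]; linarith
      have g2 : (L ^ 2) ≤ c0 / 2 / 16 * √(N : ℝ) := by
        have := e2
        rwa [← Real.sqrt_eq_rpow] at this
      have g3 : 2 * √(N : ℝ) * L ^ 2 ≤ c0 / 2 / 2 * Y := by
        calc 2 * √(N : ℝ) * L ^ 2 ≤ 2 * √(N : ℝ) * (c0 / 2 / 16 * √(N : ℝ)) :=
              mul_le_mul_of_nonneg_left g2 (by positivity)
          _ = c0 / 2 / 8 * (√(N : ℝ) * √(N : ℝ)) := by ring
          _ = c0 / 2 / 8 * N := by rw [Real.mul_self_sqrt hNpos.le]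
          _ = c0 / 2 / 2 * Y := by rw [hNY]; ring
      have g5 : 2 * √(N : ℝ) ≤ c0 / 2 / 2 * (Y / L ^ 2) := by
        rw [show c0 / 2 / 2 * ((Y : ℝ) / L ^ 2) = (c0 / 2 / 2 * Y) / L ^ 2 by ring,
          le_div_iff₀ (by positivity)]
        exact g3
      linarith
    linarith
  linarith

end Pool.Agent.ChenShift
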