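import Pool.Agent.Work.MP_0c1432_nt_h67.Arith

/-!
# The parity of the number of prime factors of `p - 1` and of neighbouring shifts
-/

set_option autoImplicit false

namespace Pool.Agent.ChenShift

open Finset Filter
open scoped Classical Topology
open ArithmeticFunction

lemma adm_one {k : ℕ} (hk0 : 0 < k) (hk : Even k) : Adm k 1 where
  k_pos := hk0
  a_ne := one_ne_zero
  cop := isCoprime_one_right
  even := by
    rw [mul_one]
    exact_mod_cast hk

lemma adm_neg {k : ℕ} (hk : 2 ≤ k) : Adm k (-((k : ℤ) - 1)) where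
  k_pos := by omega
  a_ne := by
    have : (2 : ℤ) ≤ k := by exact_mod_cast hk
    omega
  cop := ⟨1, 1, by ring⟩
  even := by
    have h := Int.even_mul_succ_self ((k : ℤ) - 1)
    rw [show (k : ℤ) * -((k : ℤ) - 1) = -(((k : ℤ) - 1) * ((k : ℤ) - 1 + 1)) by ring]
    exact h.neg

/-- counting witnesses up to `x` -/
lemma many_of {k : ℕ} {a : ℤ} (hka : Adm k a) (hk : 2 ≤ k) (b : ℕ) (W : ℕ → Prop)
    (h : ∀ n : ℕ, b ≤ n → a.natAbs ≤ n → (U k a n).Prime → ((U k a n : ℕ) : ℤ) = k * n + a →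
      (n.Prime ∨ ∃ q₁ q₂ : ℕ, q₁.Prime ∧ q₂.Prime ∧ n = q₁ * q₂) → W (U k a n) ∨ W n) :
    ∃ c : ℝ, 0 < c ∧ ∀ᶠ x : ℕ in atTop,
      c * (x / (Real.log x) ^ 2) ≤ ({p : ℕ | p ≤ x ∧ W p}.ncard : ℝ) := by
  obtain ⟨c, hc, hev⟩ := chen_x hka hk b
  refine ⟨c / 2, by positivity, ?_⟩
  filter_upwards [hev] with x hx
  obtain ⟨S, hS, hS2⟩ := hx
  have h1 := half hka S W (x := x) (fun n hn => ⟨(hS2 n hn).2.1, (hS2 n hn).2.2.1,
    (hS2 n hn).2.2.2.1⟩) (fun n hn => by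
      obtain ⟨h2, h3, h4, h5, h6, h7, h8⟩ := hS2 n hn
      exact h n h2 h3 h6 h7 h8)
  have h2 : ((range (x + 1)).filter W).card = {p : ℕ | p ≤ x ∧ W p}.ncard := by
    rw [← Set.ncard_coe_finset]
    congr 1
    ext p
    simp only [coe_filter, Finset.mem_range, Set.mem_ofPred_eq]
    rw [Nat.lt_succ_iff]
  rw [h2] at h1
  have h3 : (S.card : ℝ) ≤ 2 * ({p : ℕ | p ≤ x ∧ W p}.ncard : ℝ) := by exact_mod_cast h1
  linarith

lemma om_two {q₁ q₂ : ℕ} (h1 : q₁.Prime) (h2 : q₂.Prime) : cardFactors (q₁ * q₂) = 2 := by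
  rw [cardFactors_mul h1.ne_zero h2.ne_zero, cardFactors_apply_prime h1,
    cardFactors_apply_prime h2]

/-- **Both parities of the next shift.** -/
theorem next_shift (e : ℕ) : ∃ c : ℝ, 0 < c ∧ ∀ᶠ x : ℕ in atTop,
    c * (x / (Real.log x) ^ 2) ≤ ({p : ℕ | p ≤ x ∧ (p.Prime ∧ (Odd (cardFactors (p - 1)) ∨
      cardFactors (p + 1) ≡ e [MOD 2]))}.ncard : ℝ) := by
  refine many_of (adm_one (k := 2) (by norm_num) (by decide)) le_rfl 0 _ ?_
  intro n _ _ hp hU hn
  have hUn : U 2 1 n = 2 * n + 1 := by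
    have : ((U 2 1 n : ℕ) : ℤ) = ((2 * n + 1 : ℕ) : ℤ) := by
      rw [hU]
      push_cast
      ring
    exact_mod_cast this
  rw [hUn] at hp ⊢
  rcases hn with hn | ⟨q₁, q₂, h1, h2, h3⟩
  · have h4 : cardFactors (2 * n + 1 + 1) = 1 + cardFactors (n + 1) := by
      rw [show 2 * n + 1 + 1 = 2 * (n + 1) by ring, cardFactors_mul (by norm_num) (by omega),
        cardFactors_apply_prime Nat.prime_two]
    by_cases h5 : cardFactors (n + 1) ≡ e [MOD 2]
    · exact Or.inr ⟨hn, Or.inr h5⟩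
    · refine Or.inl ⟨hp, Or.inr ?_⟩
      rw [h4]
      unfold Nat.ModEq at h5 ⊢
      omega
  · refine Or.inl ⟨hp, Or.inl ?_⟩
    rw [show 2 * n + 1 - 1 = 2 * (q₁ * q₂) by rw [h3]; omega,
      cardFactors_mul (by norm_num) (mul_ne_zero h1.ne_zero h2.ne_zero), om_two h1 h2,
      cardFactors_apply_prime Nat.prime_two]
    decide

/-- **Pairs of shifts.** -/
theorem shift_pairs (k : ℤ) (hodd : Odd (cardFactors k.natAbs)) (hk : 0 < k ∨ Even k) :
    ∃ c : ℝ, 0 < c ∧ ∀ᶠ x : ℕ in atTop,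
      c * (x / (Real.log x) ^ 2) ≤ ({p : ℕ | p ≤ x ∧ (p.Prime ∧ (Odd (cardFactors (p - 1)) ∨
        Odd (cardFactors ((p : ℤ) - 1 + k).toNat)))}.ncard : ℝ) := by
  obtain ⟨m, hm⟩ : ∃ m : ℕ, m = k.natAbs := ⟨_, rfl⟩
  rw [← hm] at hodd
  have hm2 : 2 ≤ m := by
    by_contra h
    interval_cases m <;> simp at hodd
  have hm0 : m ≠ 0 := by omega
  by_cases hk0 : 0 < k
  · have hkm : k = m := by omega
    refine many_of (adm_neg hm2) hm2 2 _ ?_
    intro n hn2 _ hp hU hn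
    have hm1 : (1 : ℤ) ≤ m := by exact_mod_cast (by omega : 1 ≤ m)
    have e1 : ((U m (-((m : ℤ) - 1)) n : ℕ) : ℤ) - 1 + k = ((m * n : ℕ) : ℤ) := by
      rw [hU, hkm]
      push_cast
      ring
    have e2 : U m (-((m : ℤ) - 1)) n - 1 = m * (n - 1) := by
      have h1 : ((U m (-((m : ℤ) - 1)) n : ℕ) : ℤ) = ((m * (n - 1) + 1 : ℕ) : ℤ) := by
        rw [hU]
        rw [Nat.cast_add, Nat.cast_mul, Nat.cast_sub (by omega : 1 ≤ n)]
        push_cast
        ring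
      have h2 : U m (-((m : ℤ) - 1)) n = m * (n - 1) + 1 := by exact_mod_cast h1
      omega
    rcases hn with hn | ⟨q₁, q₂, h1, h2, h3⟩
    · by_cases h5 : Odd (cardFactors (n - 1))
      · exact Or.inr ⟨hn, Or.inl h5⟩
      · refine Or.inl ⟨hp, Or.inl ?_⟩
        rw [e2, cardFactors_mul hm0 (by omega)]
        exact hodd.add_even (Nat.not_odd_iff_even.1 h5)
    · refine Or.inl ⟨hp, Or.inr ?_⟩
      rw [e1, Int.toNat_natCast, h3, cardFactors_mul hm0 (mul_ne_zero h1.ne_zero h2.ne_zero),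
        om_two h1 h2]
      exact hodd.add_even even_two
  · have hev : Even k := hk.resolve_left hk0
    have hkm : k = -(m : ℤ) := by omega
    have hevm : Even m := by
      rw [hm]
      exact Int.natAbs_even.2 hev
    refine many_of (adm_one (by omega) hevm) hm2 2 _ ?_
    intro n hn2 _ hp hU hn
    have e1 : ((U m 1 n : ℕ) : ℤ) - 1 + k = ((m * (n - 1) : ℕ) : ℤ) := by
      rw [hU, hkm, Nat.cast_mul, Nat.cast_sub (by omega : 1 ≤ n)]
      push_cast
      ring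
    have e2 : U m 1 n - 1 = m * n := by
      have h1 : ((U m 1 n : ℕ) : ℤ) = ((m * n + 1 : ℕ) : ℤ) := by
        rw [hU]
        push_cast
        ring
      have h2 : U m 1 n = m * n + 1 := by exact_mod_cast h1
      omega
    rcases hn with hn | ⟨q₁, q₂, h1, h2, h3⟩
    · by_cases h5 : Odd (cardFactors (n - 1))
      · exact Or.inr ⟨hn, Or.inl h5⟩
      · refine Or.inl ⟨hp, Or.inr ?_⟩
        rw [e1, Int.toNat_natCast, cardFactors_mul hm0 (by omega)]
        exact hodd.add_even (Nat.not_odd_iff_even.1 h5)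
    · refine Or.inl ⟨hp, Or.inl ?_⟩
      rw [e2, h3, cardFactors_mul hm0 (mul_ne_zero h1.ne_zero h2.ne_zero), om_two h1 h2]
      exact hodd.add_even even_two

end Pool.Agent.ChenShift
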