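import Pool.Agent.Work.Chen.Interface

/-!
# Chen's theorem for the numbers `n` with `k n + a` prime: definitions and block statements

`k ≥ 1`, `a ≠ 0` an integer coprime to `k`, `a k` even. The numbers `n ∈ [2Y, 3Y)` with
`n ≡ 1` modulo `M = k |a|` and `k n + a` prime are sieved by the primes not dividing `M`.
`N = 4 Y`, `z = N^(1/8)`, `y = N^(1/3)`.
-/

set_option autoImplicit false

namespace Pool.Agent.ChenShift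

open Finset
open scoped Classical
open Pool.Agent.Chen

/-- The admissible pairs `(k, a)`. -/
structure Adm (k : ℕ) (a : ℤ) : Prop where
  k_pos : 1 ≤ k
  a_ne : a ≠ 0
  cop : IsCoprime (k : ℤ) a
  even : Even ((k : ℤ) * a)

/-- The linear form, as a natural number. -/
def U (k : ℕ) (a : ℤ) (n : ℕ) : ℕ := ((k : ℤ) * n + a).toNat

/-- The modulus `M = k |a|`. -/
def Md (k : ℕ) (a : ℤ) : ℕ := k * a.natAbs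

/-- The numbers `n ∈ [2Y, 3Y)`, `n ≡ 1` modulo `M`, with `k n + a` prime. -/
noncomputable def Nn (k : ℕ) (a : ℤ) (Y : ℕ) : Finset ℕ :=
  (Ico (2 * Y) (3 * Y)).filter (fun n => (U k a n).Prime ∧ n ≡ 1 [MOD Md k a])

/-- The number of primes in the window `[2kY + a, 3kY + a)`, divided by `φ(k M)`. -/
noncomputable def XX (k : ℕ) (a : ℤ) (Y : ℕ) : ℝ :=
  (((Ico (U k a (2 * Y)) (U k a (3 * Y))).filter Nat.Prime).card : ℝ) /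
    ((k * Md k a).totient : ℝ)

/-- The sifted sum. -/
noncomputable def T1 (k : ℕ) (a : ℤ) (Y : ℕ) (z : ℝ) : ℕ :=
  ((Nn k a Y).filter (fun n => ∀ q ∈ Sf (Md k a) z, ¬ q ∣ n)).card

/-- The same with `q ∣ n`. -/
noncomputable def Tq (k : ℕ) (a : ℤ) (Y : ℕ) (z : ℝ) (q : ℕ) : ℕ :=
  ((Nn k a Y).filter (fun n => q ∣ n ∧ ∀ q' ∈ Sf (Md k a) z, ¬ q' ∣ n)).card

/-- The triple products `n ∈ [2Y, 3Y)`, `n ≡ 1` modulo `M`, with `k n + a` prime. -/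
noncomputable def T3 (k : ℕ) (a : ℤ) (Y : ℕ) (z y : ℝ) : ℕ :=
  ((TB (4 * Y) Y z y).filter (fun n => (U k a n).Prime ∧ n ≡ 1 [MOD Md k a])).card

/-- The number of `n ∈ [2Y, 3Y)`, `n ≡ 1` modulo `M`, `k n + a` prime, with at most two prime
factors, all at least `z`. -/
noncomputable def Ct (k : ℕ) (a : ℤ) (Y : ℕ) (z : ℝ) : ℕ :=
  ((Nn k a Y).filter (fun n => n.primeFactorsList.length ≤ 2 ∧
    ∀ q : ℕ, q ∈ n.primeFactorsList → z ≤ (q : ℝ))).card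

/-- WT: the combinatorial inequality. -/
def Stmt_WT : Prop := ∀ (k : ℕ) (a : ℤ), Adm k a → ∀ (Y : ℕ) (z y : ℝ), 1 ≤ Y → 2 ≤ z → z ≤ y →
  ((4 * Y : ℕ) : ℝ) ≤ y ^ 3 →
  (T1 k a Y z : ℝ) - 1 / 2 * ∑ q ∈ Qs (Md k a) z y, (Tq k a Y z q : ℝ)
    - 1 / 2 * (T3 k a Y z y : ℝ) - (2 * Y / z + √((4 * Y : ℕ) : ℝ) + 1) ≤ (Ct k a Y z : ℝ)

/-- PX: the number of primes in the window, lower bound. -/
def Stmt_PX : Prop := ∀ (k : ℕ) (a : ℤ), Adm k a → ∀ δ : ℝ, 0 < δ → ∃ Y₀ : ℕ, ∀ Y ≥ Y₀,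
  (1 - δ) * (Y / Real.log ((4 * Y : ℕ) : ℝ) / ((Md k a).totient : ℝ)) ≤ XX k a Y

/-- B1: the main term. -/
def Stmt_B1 : Prop := ∀ A : ℝ, LinProp A → ∀ (k : ℕ) (a : ℤ), Adm k a →
  ∀ δ : ℝ, 0 < δ → ∃ Y₀ : ℕ, ∀ Y ≥ Y₀,
  XX k a Y * VN (Md k a) (((4 * Y : ℕ) : ℝ) ^ (1 / 8 : ℝ)) * (A * Real.log 3 / 4 - δ)
    ≤ (T1 k a Y (((4 * Y : ℕ) : ℝ) ^ (1 / 8 : ℝ)) : ℝ)

/-- BQ: the sum over `q`. -/
def Stmt_BQ : Prop := ∀ A : ℝ, LinProp A → ∀ (k : ℕ) (a : ℤ), Adm k a →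
  ∀ δ : ℝ, 0 < δ → ∃ Y₀ : ℕ, ∀ Y ≥ Y₀,
  ∑ q ∈ Qs (Md k a) (((4 * Y : ℕ) : ℝ) ^ (1 / 8 : ℝ)) (((4 * Y : ℕ) : ℝ) ^ (1 / 3 : ℝ)),
      (Tq k a Y (((4 * Y : ℕ) : ℝ) ^ (1 / 8 : ℝ)) q : ℝ) ≤
    XX k a Y * VN (Md k a) (((4 * Y : ℕ) : ℝ) ^ (1 / 8 : ℝ)) * (A * Real.log 6 / 4 + δ)

/-- BB: the switching. -/
def Stmt_BB : Prop := ∀ A : ℝ, LinProp A → ∀ (k : ℕ) (a : ℤ), Adm k a →
  ∀ δ : ℝ, 0 < δ → ∃ Y₀ : ℕ, ∀ Y ≥ Y₀,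
  (T3 k a Y (((4 * Y : ℕ) : ℝ) ^ (1 / 8 : ℝ)) (((4 * Y : ℕ) : ℝ) ^ (1 / 3 : ℝ)) : ℝ) ≤
    (((TB (4 * Y) Y (((4 * Y : ℕ) : ℝ) ^ (1 / 8 : ℝ))
        (((4 * Y : ℕ) : ℝ) ^ (1 / 3 : ℝ))).card : ℝ) / ((Md k a).totient : ℝ) * (A / 4 + δ)
      + δ * XX k a Y) * VN (Md k a) (((4 * Y : ℕ) : ℝ) ^ (1 / 8 : ℝ))

/-- CS: **Chen's theorem** for `n` with `k n + a` prime. -/
def Stmt_CS : Prop := ∀ (k : ℕ) (a : ℤ), Adm k a → ∃ c : ℝ, 0 < c ∧ ∃ Y₀ : ℕ, ∀ Y ≥ Y₀,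
  c * (Y / (Real.log ((4 * Y : ℕ) : ℝ)) ^ 2) ≤ (Ct k a Y (((4 * Y : ℕ) : ℝ) ^ (1 / 8 : ℝ)) : ℝ)

end Pool.Agent.ChenShift
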