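import Pool.Agent.Work.MP_0c1432_nt_h67.Final

/-!
# The parity patterns of `Ω(p - 1)`, `Ω(p + 1)`
-/

set_option autoImplicit false

namespace Pool.Agent.ChenShift

open Finset Filter
open scoped Classical Topology
open ArithmeticFunction

/-- **Patterns**: no pattern other than (odd, odd) holds for almost all primes. -/
theorem patterns (a b : ℕ) (hab : ¬ (Odd a ∧ Odd b)) : ∃ c : ℝ, 0 < c ∧ ∀ᶠ x : ℕ in atTop,
    c * (x / (Real.log x) ^ 2) ≤ ({p : ℕ | p ≤ x ∧ p.Prime ∧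
      ¬ (cardFactors (p - 1) ≡ a [MOD 2] ∧ cardFactors (p + 1) ≡ b [MOD 2])}.ncard : ℝ) := by
  by_cases ha : Odd a
  · -- `b` is even, `p = 2 n - 1`
    have hb : Even b := by
      rw [← Nat.not_odd_iff_even]
      exact fun h => hab ⟨ha, h⟩
    refine many_of (adm_neg (k := 2) le_rfl) le_rfl 2 _ ?_
    intro n hn2 _ hp hU hn
    have hUn : U 2 (-(((2 : ℕ) : ℤ) - 1)) n = 2 * n - 1 := by
      have : ((U 2 (-(((2 : ℕ) : ℤ) - 1)) n : ℕ) : ℤ) = ((2 * n - 1 : ℕ) : ℤ) := by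
        rw [hU, Nat.cast_sub (by omega : 1 ≤ 2 * n)]
        push_cast
        ring
      exact_mod_cast this
    rw [hUn] at hp ⊢
    have e1 : 2 * n - 1 - 1 = 2 * (n - 1) := by omega
    have e2 : 2 * n - 1 + 1 = 2 * n := by omega
    rw [e1, e2]
    obtain ⟨s, hs⟩ := ha
    obtain ⟨t, ht⟩ := hb
    rcases hn with hn | ⟨q₁, q₂, h1, h2, h3⟩
    · have h4 : cardFactors (2 * (n - 1)) = 1 + cardFactors (n - 1) := by
        rw [cardFactors_mul (by norm_num) (by omega), cardFactors_apply_prime Nat.prime_two]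
      by_cases h5 : cardFactors (n - 1) ≡ a [MOD 2]
      · refine Or.inl ⟨hp, fun h6 => ?_⟩
        have h7 := h6.1
        rw [h4] at h7
        unfold Nat.ModEq at h5 h7
        omega
      · exact Or.inr ⟨hn, fun h6 => h5 h6.1⟩
    · refine Or.inl ⟨hp, fun h6 => ?_⟩
      have h7 := h6.2
      rw [h3, cardFactors_mul (by norm_num) (mul_ne_zero h1.ne_zero h2.ne_zero), om_two h1 h2,
        cardFactors_apply_prime Nat.prime_two] at h7
      unfold Nat.ModEq at h7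
      omega
  · obtain ⟨c, hc, h⟩ := next_shift (b + 1)
    refine ⟨c, hc, ?_⟩
    filter_upwards [h] with x hx
    refine hx.trans ?_
    have hfin : {p : ℕ | p ≤ x ∧ p.Prime ∧
      ¬ (cardFactors (p - 1) ≡ a [MOD 2] ∧ cardFactors (p + 1) ≡ b [MOD 2])}.Finite :=
      (Set.finite_Iic x).subset (fun p hp => hp.1)
    have hsub : {p : ℕ | p ≤ x ∧ (p.Prime ∧ (Odd (cardFactors (p - 1)) ∨
      cardFactors (p + 1) ≡ b + 1 [MOD 2]))} ⊆ {p : ℕ | p ≤ x ∧ p.Prime ∧
      ¬ (cardFactors (p - 1) ≡ a [MOD 2] ∧ cardFactors (p + 1) ≡ b [MOD 2])} := by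
      rintro p ⟨h1, h2, h3⟩
      refine ⟨h1, h2, ?_⟩
      rintro ⟨h4, h5⟩
      rw [Nat.not_odd_iff_even] at ha
      obtain ⟨s, hs⟩ := ha
      unfold Nat.ModEq at h3 h4 h5
      rcases h3 with ⟨t, ht⟩ | h3
      · omega
      · omega
    exact_mod_cast Set.ncard_le_ncard hsub hfin

/-- **Pairs of shifts**, patterns. -/
theorem pair_patterns (k : ℤ) (b : ℕ) (hodd : Odd (cardFactors k.natAbs))
    (hk : 0 < k ∨ (Even k ∧ Even b)) :
    ∃ c : ℝ, 0 < c ∧ ∀ᶠ x : ℕ in atTop,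
      c * (x / (Real.log x) ^ 2) ≤ ({p : ℕ | p ≤ x ∧ (p.Prime ∧
        ¬ (cardFactors (p - 1) ≡ b [MOD 2] ∧
          Even (cardFactors ((p : ℤ) - 1 + k).toNat)))}.ncard : ℝ) := by
  obtain ⟨m, hm⟩ : ∃ m : ℕ, m = k.natAbs := ⟨_, rfl⟩
  rw [← hm] at hodd
  have hm2 : 2 ≤ m := by
    by_contra h
    interval_cases m <;> simp at hodd
  have hm0 : m ≠ 0 := by omega
  by_cases hk0 : 0 < k
  · have hkm : k = m := by omega
    refine many_of (adm_neg hm2) hm2 2 _ ?_
    intro n hn2 _ hp hU hn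
    have hm1 : (1 : ℤ) ≤ m := by exact_mod_cast (by omega : 1 ≤ m)
    have e1 : ((U m (-((m : ℤ) - 1)) n : ℕ) : ℤ) - 1 + k = ((m * n : ℕ) : ℤ) := by
      rw [hU, hkm]
      push_cast
      ring
    have e2 : U m (-((m : ℤ) - 1)) n - 1 = m * (n - 1) := by
      have h1 : ((U m (-((m : ℤ) - 1)) n : ℕ) : ℤ) = ((m * (n - 1) + 1 : ℕ) : ℤ) := by
        rw [hU]
        rw [Nat.cast_add, Nat.cast_mul, Nat.cast_sub (by omega : 1 ≤ n)]
        push_cast
        ring
      have h2 : U m (-((m : ℤ) - 1)) n = m * (n - 1) + 1 := by exact_mod_cast h1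
      omega
    rcases hn with hn | ⟨q₁, q₂, h1, h2, h3⟩
    · by_cases h5 : cardFactors (n - 1) ≡ b [MOD 2]
      · refine Or.inl ⟨hp, fun h6 => ?_⟩
        have h7 := h6.1
        rw [e2, cardFactors_mul hm0 (by omega)] at h7
        obtain ⟨t, ht⟩ := hodd
        unfold Nat.ModEq at h5 h7
        omega
      · exact Or.inr ⟨hn, fun h6 => h5 h6.1⟩
    · refine Or.inl ⟨hp, fun h6 => ?_⟩
      have h7 := h6.2
      rw [e1, Int.toNat_natCast, h3, cardFactors_mul hm0 (mul_ne_zero h1.ne_zero h2.ne_zero),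
        om_two h1 h2] at h7
      exact (Nat.not_even_iff_odd.2 (hodd.add_even even_two)) h7
  · obtain ⟨hev, hb⟩ := hk.resolve_left hk0
    have hkm : k = -(m : ℤ) := by omega
    have hevm : Even m := by
      rw [hm]
      exact Int.natAbs_even.2 hev
    refine many_of (adm_one (by omega) hevm) hm2 2 _ ?_
    intro n hn2 _ hp hU hn
    have e1 : ((U m 1 n : ℕ) : ℤ) - 1 + k = ((m * (n - 1) : ℕ) : ℤ) := by
      rw [hU, hkm, Nat.cast_mul, Nat.cast_sub (by omega : 1 ≤ n)]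
      push_cast
      ring
    have e2 : U m 1 n - 1 = m * n := by
      have h1 : ((U m 1 n : ℕ) : ℤ) = ((m * n + 1 : ℕ) : ℤ) := by
        rw [hU]
        push_cast
        ring
      have h2 : U m 1 n = m * n + 1 := by exact_mod_cast h1
      omega
    obtain ⟨s, hs⟩ := hb
    rcases hn with hn | ⟨q₁, q₂, h1, h2, h3⟩
    · by_cases h5 : cardFactors (n - 1) ≡ b [MOD 2]
      · refine Or.inl ⟨hp, fun h6 => ?_⟩
        have h7 := h6.2
        rw [e1, Int.toNat_natCast, cardFactors_mul hm0 (by omega)] at h7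
        obtain ⟨t, ht⟩ := hodd
        obtain ⟨u, hu⟩ := h7
        unfold Nat.ModEq at h5
        omega
      · exact Or.inr ⟨hn, fun h6 => h5 h6.1⟩
    · refine Or.inl ⟨hp, fun h6 => ?_⟩
      have h7 := h6.1
      rw [e2, h3, cardFactors_mul hm0 (mul_ne_zero h1.ne_zero h2.ne_zero), om_two h1 h2] at h7
      obtain ⟨t, ht⟩ := hodd
      unfold Nat.ModEq at h7
      omega

end Pool.Agent.ChenShift
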