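import Pool.Agent.Work.MP_0c1432_nt_h67.Interface
import Pool.Agent.Work.Chen.CI

/-!
# Block WT: the combinatorial inequality
-/

set_option autoImplicit false

namespace Pool.Agent.ChenShift

open Finset
open scoped Classical
open Pool.Agent.Chen Pool.Agent.Chen.CIw

/-- the weight of one number -/
theorem weight (n M : ℕ) (z y : ℝ) (hz : 2 ≤ z) (hzy : z ≤ y) (hN : (n : ℝ) < y ^ 3) (hn : 0 < n)
    (hM : ∀ q : ℕ, q.Prime → q ∣ n → ¬ q ∣ M) (hs : ∀ q ∈ Sf M z, ¬ q ∣ n) :
    (1 : ℝ) - 1 / 2 * (((Qs M z y).filter (fun q => q ∣ n)).card : ℝ) -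
      1 / 2 * (if Tri z y n then 1 else 0) ≤
      (if n.primeFactorsList.length ≤ 2 then 1 else 0) +
      (if ∃ q : ℕ, q.Prime ∧ z ≤ (q : ℝ) ∧ q * q ∣ n then 1 else 0) := by
  have hc0 : (0 : ℝ) ≤ (((Qs M z y).filter (fun q => q ∣ n)).card : ℝ) := Nat.cast_nonneg _
  have hT0 : (0 : ℝ) ≤ (if Tri z y n then 1 else 0) := by split_ifs <;> norm_num
  by_cases hsq : ∃ q : ℕ, q.Prime ∧ z ≤ (q : ℝ) ∧ q * q ∣ n
  · rw [if_pos hsq]
    have : (0 : ℝ) ≤ (if n.primeFactorsList.length ≤ 2 then 1 else 0) := by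
      split_ifs <;> norm_num
    linarith
  by_cases hlen : n.primeFactorsList.length ≤ 2
  · rw [if_pos hlen, if_neg hsq]
    linarith
  rw [if_neg hlen, if_neg hsq]
  push Not at hlen
  have hge : ∀ q : ℕ, q.Prime → q ∣ n → z ≤ (q : ℝ) := by
    intro q hq hqn
    by_contra hlt
    push Not at hlt
    refine hs q ?_ hqn
    simp only [Sf, mem_filter, mem_range]
    exact ⟨Nat.lt_ceil.2 hlt, hq, hM q hq hqn⟩
  have hQ : ∀ q : ℕ, q.Prime → q ∣ n → (q : ℝ) < y → q ∈ (Qs M z y).filter (fun q => q ∣ n) := by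
    intro q hq hqn hqy
    simp only [Qs, mem_filter, mem_range]
    exact ⟨⟨Nat.lt_ceil.2 hqy, hq, hge q hq hqn, hM q hq hqn⟩, hqn⟩
  have hsorted := (Nat.primeFactorsList_sorted n).pairwise
  have hprod := Nat.prod_primeFactorsList hn.ne'
  have hpr : ∀ q ∈ n.primeFactorsList, q.Prime := fun q hq =>
    Nat.prime_of_mem_primeFactorsList hq
  have hdv : ∀ q ∈ n.primeFactorsList, q ∣ n := fun q hq =>
    Nat.dvd_of_mem_primeFactorsList hq
  have hypos : 0 < y := by linarith
  -- the list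
  obtain ⟨a, b, c, rest, hL⟩ : ∃ a b c rest, n.primeFactorsList = a :: b :: c :: rest := by
    rcases hl : n.primeFactorsList with _ | ⟨a, _ | ⟨b, _ | ⟨c, rest⟩⟩⟩
    · rw [hl] at hlen; simp at hlen
    · rw [hl] at hlen; simp at hlen
    · rw [hl] at hlen; simp at hlen
    · exact ⟨a, b, c, rest, rfl⟩
  rw [hL] at hsorted hprod hpr hdv
  simp only [List.pairwise_cons, List.mem_cons, List.prod_cons] at hsorted hprod
  obtain ⟨h1, h2, h3, h4⟩ := hsorted
  have hab : a ≤ b := h1 b (Or.inl rfl)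
  have hbc : b ≤ c := h2 c (Or.inl rfl)
  have ha := hpr a (by simp)
  have hb := hpr b (by simp)
  have hc := hpr c (by simp)
  have hda := hdv a (by simp)
  have hdb := hdv b (by simp)
  have hdc := hdv c (by simp)
  have hRpos : 0 < rest.prod := by
    apply Nat.pos_of_ne_zero
    intro h
    rw [h] at hprod
    simp at hprod
    omega
  have habne : a ≠ b := by
    intro h
    apply hsq
    refine ⟨a, ha, hge a ha hda, ?_⟩
    refine ⟨c * rest.prod, ?_⟩
    rw [← hprod, ← h]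
    ring
  have hay : (a : ℝ) < y := by
    by_contra hcon
    push Not at hcon
    have hb' : y ≤ (b : ℝ) := hcon.trans (by exact_mod_cast hab)
    have hc' : y ≤ (c : ℝ) := hb'.trans (by exact_mod_cast hbc)
    have h5 : y ^ 3 ≤ (n : ℝ) := by
      rw [← hprod]
      push_cast
      have hR1 : (1 : ℝ) ≤ ((rest.prod : ℕ) : ℝ) := by exact_mod_cast hRpos
      have e1 : y * y ≤ (a : ℝ) * b := mul_le_mul hcon hb' hypos.le (by positivity)
      have e2 : y * y * y ≤ (a : ℝ) * b * c := mul_le_mul e1 hc' hypos.le (by positivity)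
      have e3 : (a : ℝ) * b * c * 1 ≤ (a : ℝ) * b * c * ((rest.prod : ℕ) : ℝ) :=
        mul_le_mul_of_nonneg_left hR1 (by positivity)
      push_cast at e3
      nlinarith
    linarith
  have hQa := hQ a ha hda hay
  by_cases hby : (b : ℝ) < y
  · have hQb := hQ b hb hdb hby
    have h2c : 2 ≤ ((Qs M z y).filter (fun q => q ∣ n)).card := by
      have : ({a, b} : Finset ℕ) ⊆ (Qs M z y).filter (fun q => q ∣ n) := by
        intro x hx
        simp only [mem_insert, mem_singleton] at hx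
        rcases hx with rfl | rfl
        · exact hQa
        · exact hQb
      have h := Finset.card_le_card this
      rwa [Finset.card_pair habne] at h
    have h2r : (2 : ℝ) ≤ (((Qs M z y).filter (fun q => q ∣ n)).card : ℝ) := by
      exact_mod_cast h2c
    linarith
  · push Not at hby
    have hcy : y ≤ (c : ℝ) := hby.trans (by exact_mod_cast hbc)
    have hrest : rest = [] := by
      rcases hr : rest with _ | ⟨d, rest'⟩
      · rfl
      · exfalso
        rw [hr] at hprod h3 hRpos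
        have hcd : c ≤ d := h3 d (by simp)
        have hdy : y ≤ (d : ℝ) := hcy.trans (by exact_mod_cast hcd)
        simp only [List.prod_cons] at hprod hRpos
        have hR'pos : 0 < rest'.prod := Nat.pos_of_mul_pos_left hRpos
        have h5 : y ^ 3 ≤ (n : ℝ) := by
          rw [← hprod]
          push_cast
          have hR1 : (1 : ℝ) ≤ ((rest'.prod : ℕ) : ℝ) := by exact_mod_cast hR'pos
          have ha1 : (1 : ℝ) ≤ (a : ℝ) := by exact_mod_cast ha.one_le
          have e1 : y * y ≤ (b : ℝ) * c := mul_le_mul hby hcy hypos.le (by positivity)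
          have e2 : y * y * y ≤ (b : ℝ) * c * d := mul_le_mul e1 hdy hypos.le (by positivity)
          have e3 : 1 * 1 ≤ (a : ℝ) * ((rest'.prod : ℕ) : ℝ) :=
            mul_le_mul ha1 hR1 (by norm_num) (by positivity)
          have e4 : (b : ℝ) * c * d * 1 ≤ (b : ℝ) * c * d * ((a : ℝ) * ((rest'.prod : ℕ) : ℝ)) :=
            mul_le_mul_of_nonneg_left (by linarith) (by positivity)
          push_cast at e4
          nlinarith
        linarith
    have hTri : Tri z y n := by
      refine ⟨a, b, c, ha, hb, hc, hge a ha hda, hay, hby, hbc, ?_⟩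
      rw [← hprod, hrest]; simp [mul_assoc]
    rw [if_pos hTri]
    have h1c : 1 ≤ ((Qs M z y).filter (fun q => q ∣ n)).card :=
      Finset.card_pos.2 ⟨a, hQa⟩
    have h1r : (1 : ℝ) ≤ (((Qs M z y).filter (fun q => q ∣ n)).card : ℝ) := by
      exact_mod_cast h1c
    linarith

theorem WT : Stmt_WT := by
  intro k a hka Y z y hY hz hzy hN
  have hz0 : 0 < z := by linarith
  have hyY' : (0 : ℝ) < Y := by exact_mod_cast hY
  set M := Md k a with hMdef
  -- the sifted set
  set P1 := (Nn k a Y).filter (fun n => ∀ q ∈ Sf M z, ¬ q ∣ n) with hP1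
  have hNn : ∀ n ∈ Nn k a Y, 2 * Y ≤ n ∧ n < 3 * Y ∧ (U k a n).Prime ∧ n ≡ 1 [MOD M] := by
    intro n hn
    simp only [Nn, mem_filter, mem_Ico] at hn
    exact ⟨hn.1.1, hn.1.2, hn.2.1, hn.2.2⟩
  have hcop : ∀ n ∈ Nn k a Y, ∀ q : ℕ, q.Prime → q ∣ n → ¬ q ∣ M := by
    intro n hn q hq hqn hqM
    have h1 := (hNn n hn).2.2.2
    have h2 : n ≡ 1 [MOD q] := h1.of_dvd hqM
    have h3 : n ≡ 0 [MOD q] := (Nat.modEq_zero_iff_dvd).2 hqn
    have h4 : 1 ≡ 0 [MOD q] := h2.symm.trans h3
    exact hq.one_lt.ne' (Nat.dvd_one.1 ((Nat.modEq_zero_iff_dvd).1 h4))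
  have hpt : ∀ n ∈ P1, (1 : ℝ) - 1 / 2 * (((Qs M z y).filter (fun q => q ∣ n)).card : ℝ) -
      1 / 2 * (if Tri z y n then 1 else 0) ≤
      (if n.primeFactorsList.length ≤ 2 then 1 else 0) +
      (if ∃ q : ℕ, q.Prime ∧ z ≤ (q : ℝ) ∧ q * q ∣ n then 1 else 0) := by
    intro n hn
    rw [hP1, mem_filter] at hn
    obtain ⟨h1, h2, h3, h4⟩ := hNn n hn.1
    refine weight n M z y hz hzy ?_ (by omega) (hcop n hn.1) hn.2
    have h5 : (n : ℝ) < ((4 * Y : ℕ) : ℝ) := by exact_mod_cast (by omega : n < 4 * Y)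
    linarith
  have hsum := Finset.sum_le_sum hpt
  rw [Finset.sum_sub_distrib, Finset.sum_sub_distrib, Finset.sum_add_distrib,
    ← Finset.mul_sum, ← Finset.mul_sum] at hsum
  -- T1
  have e1 : ∑ n ∈ P1, (1 : ℝ) = (T1 k a Y z : ℝ) := by
    rw [Finset.sum_const, nsmul_eq_mul, mul_one]; rfl
  -- Tq
  have e2 : ∑ n ∈ P1, (((Qs M z y).filter (fun q => q ∣ n)).card : ℝ) =
      ∑ q ∈ Qs M z y, (Tq k a Y z q : ℝ) := by
    have h1 : ∀ q, Tq k a Y z q = (P1.filter (fun n => q ∣ n)).card := by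
      intro q
      unfold Tq
      congr 1
      ext n
      simp only [hP1, mem_filter, hMdef]
      tauto
    simp only [h1]
    have : ∑ n ∈ P1, ((Qs M z y).filter (fun q => q ∣ n)).card =
        ∑ q ∈ Qs M z y, (P1.filter (fun n => q ∣ n)).card := by
      simp only [Finset.card_filter]
      exact Finset.sum_comm
    exact_mod_cast this
  -- T3
  have e3 : ∑ n ∈ P1, (if Tri z y n then (1 : ℝ) else 0) ≤ (T3 k a Y z y : ℝ) := by
    rw [← Finset.sum_filter, Finset.sum_const, nsmul_eq_mul, mul_one]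
    have : (P1.filter (fun n => Tri z y n)).card ≤ T3 k a Y z y := by
      unfold T3
      apply Finset.card_le_card
      intro n hn
      rw [mem_filter, hP1, mem_filter] at hn
      obtain ⟨h1, h2, h3, h4⟩ := hNn n hn.1.1
      simp only [TB, mem_filter, mem_Ico]
      exact ⟨⟨⟨by omega, by omega⟩, hn.2⟩, h3, h4⟩
    exact_mod_cast this
  -- Ct
  have e4 : ∑ n ∈ P1, (if n.primeFactorsList.length ≤ 2 then (1 : ℝ) else 0) ≤
      (Ct k a Y z : ℝ) := by
    rw [← Finset.sum_filter, Finset.sum_const, nsmul_eq_mul, mul_one]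
    have : (P1.filter (fun n => n.primeFactorsList.length ≤ 2)).card ≤ Ct k a Y z := by
      unfold Ct
      apply Finset.card_le_card
      intro n hn
      rw [mem_filter, hP1, mem_filter] at hn
      rw [mem_filter]
      refine ⟨hn.1.1, hn.2, fun q hq => ?_⟩
      by_contra hlt
      push Not at hlt
      have hqp := Nat.prime_of_mem_primeFactorsList hq
      have hqd := Nat.dvd_of_mem_primeFactorsList hq
      refine hn.1.2 q ?_ hqd
      unfold Sf
      rw [mem_filter, mem_range]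
      exact ⟨Nat.lt_ceil.2 hlt, hqp, hcop n hn.1.1 q hqp hqd⟩
    exact_mod_cast this
  -- squares
  have e5 : ∑ n ∈ P1, (if ∃ q : ℕ, q.Prime ∧ z ≤ (q : ℝ) ∧ q * q ∣ n then (1 : ℝ) else 0) ≤
      2 * Y / z + √((4 * Y : ℕ) : ℝ) + 1 := by
    rw [← Finset.sum_filter, Finset.sum_const, nsmul_eq_mul, mul_one]
    set a' := ⌈z⌉₊ with ha
    set b := ⌊√((4 * Y : ℕ) : ℝ)⌋₊ with hb
    have ha2 : 2 ≤ a' := by
      rw [ha]
      have : (2 : ℝ) ≤ ⌈z⌉₊ := hz.trans (Nat.le_ceil z)
      exact_mod_cast this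
    have hza : z ≤ a' := Nat.le_ceil z
    have hsub : ((P1.filter (fun n => ∃ q : ℕ, q.Prime ∧ z ≤ (q : ℝ) ∧ q * q ∣ n)).card : ℝ) ≤
        ∑ q ∈ Ico a' (b + 1),
          ((((Ico (2 * Y) (3 * Y)).filter (fun l => q * q ∣ l)).card : ℕ) : ℝ) := by
      have h1 : (P1.filter (fun n => ∃ q : ℕ, q.Prime ∧ z ≤ (q : ℝ) ∧ q * q ∣ n)).card ≤
          ((Ico a' (b + 1)).biUnion
            (fun q => (Ico (2 * Y) (3 * Y)).filter (fun l => q * q ∣ l))).card := by
        apply Finset.card_le_card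
        intro n hn
        rw [mem_filter, hP1, mem_filter] at hn
        obtain ⟨h1, h2, h3, h4⟩ := hNn n hn.1.1
        obtain ⟨q, hq, hzq, hqd⟩ := hn.2
        rw [mem_biUnion]
        refine ⟨q, ?_, ?_⟩
        · rw [mem_Ico]
          refine ⟨Nat.ceil_le.2 hzq, ?_⟩
          rw [Nat.lt_succ_iff, hb]
          apply Nat.le_floor
          apply Real.le_sqrt_of_sq_le
          have h5 : q * q ≤ 4 * Y := (Nat.le_of_dvd (by omega) hqd).trans (by omega)
          have : ((q * q : ℕ) : ℝ) ≤ ((4 * Y : ℕ) : ℝ) := by exact_mod_cast h5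
          push_cast at this ⊢
          nlinarith
        · rw [mem_filter, mem_Ico]
          exact ⟨⟨h1, h2⟩, hqd⟩
      have h2 := h1.trans Finset.card_biUnion_le
      exact_mod_cast h2
    refine hsub.trans ?_
    by_cases hab : a' ≤ b + 1
    · have h1 : ∀ q ∈ Ico a' (b + 1),
          ((((Ico (2 * Y) (3 * Y)).filter (fun l => q * q ∣ l)).card : ℕ) : ℝ) ≤
          Y * (1 / (q : ℝ) ^ 2) + 1 := by
        intro q hq
        rw [mem_Ico] at hq
        have hq0 : 0 < q := by omega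
        have h3 := mult_count (2 * Y) (3 * Y) (q * q) (Nat.mul_pos hq0 hq0) (by omega)
        have h4' : (((3 * Y : ℕ) : ℝ) - ((2 * Y : ℕ) : ℝ)) = Y := by
          push_cast; ring
        rw [h4'] at h3
        refine h3.trans (le_of_eq ?_)
        push_cast
        ring
      refine (Finset.sum_le_sum h1).trans ?_
      rw [Finset.sum_add_distrib, ← Finset.mul_sum, Finset.sum_const, nsmul_eq_mul, mul_one,
        Nat.card_Ico]
      have h2 := sum_inv_sq a' ha2 b hab
      have haR : (2 : ℝ) ≤ a' := by exact_mod_cast ha2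
      have h3 : (1 : ℝ) / ((a' : ℝ) - 1) ≤ 2 / z := by
        rw [div_le_div_iff₀ (by linarith) hz0]
        linarith
      have hb0 : (0 : ℝ) ≤ 1 / (b : ℝ) := by positivity
      have h4' : ∑ q ∈ Ico a' (b + 1), (1 : ℝ) / (q : ℝ) ^ 2 ≤ 2 / z := by linarith
      have h5 : (Y : ℝ) * ∑ q ∈ Ico a' (b + 1), (1 : ℝ) / (q : ℝ) ^ 2 ≤ 2 * Y / z := by
        calc (Y : ℝ) * ∑ q ∈ Ico a' (b + 1), (1 : ℝ) / (q : ℝ) ^ 2 ≤ Y * (2 / z) :=
              mul_le_mul_of_nonneg_left h4' hyY'.le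
          _ = 2 * Y / z := by ring
      have h6 : ((b + 1 - a' : ℕ) : ℝ) ≤ √((4 * Y : ℕ) : ℝ) := by
        have h7 : b + 1 - a' ≤ b := by omega
        calc ((b + 1 - a' : ℕ) : ℝ) ≤ (b : ℝ) := by exact_mod_cast h7
          _ ≤ √((4 * Y : ℕ) : ℝ) := Nat.floor_le (Real.sqrt_nonneg _)
      linarith
    · rw [Finset.Ico_eq_empty (by omega), Finset.sum_empty]
      positivity
  rw [e1, e2] at hsum
  linarith

end Pool.Agent.ChenShift
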